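import Mathlib

/-!
# Lattice polytopes as vertex sets

A full-dimensional lattice polytope in `ℝ^d` is represented by its vertex set, a finite set of
lattice points that is convexly independent and affinely spans the space.
-/

open Set

namespace Pool.Agent.Q179.LPM

/-- The real point of an integer point. -/
def toR {d : ℕ} (v : Fin d → ℤ) : Fin d → ℝ := fun i => (v i : ℝ)

/-- No point of `V` lies in the convex hull of the other points. -/
def Indep {d : ℕ} (V : Finset (Fin d → ℤ)) : Prop :=
  ∀ x ∈ V, toR x ∉ convexHull ℝ (toR '' ((V : Set (Fin d → ℤ)) \ {x}))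

/-- `V` is the vertex set of a `d`-dimensional lattice polytope in `ℝ^d`. -/
def IsVertexSet {d : ℕ} (V : Finset (Fin d → ℤ)) : Prop :=
  (∀ x ∈ V, toR x ∉ convexHull ℝ (toR '' ((V : Set (Fin d → ℤ)) \ {x}))) ∧
    affineSpan ℝ (toR '' (V : Set (Fin d → ℤ))) = ⊤

open Classical in
/-- The vertex sets of the `d`-dimensional lattice polytopes contained in `[0,k]^d`. -/
noncomputable def polys (d k : ℕ) : Finset (Finset (Fin d → ℤ)) :=
  (Finset.Icc (0 : Fin d → ℤ) (fun _ => (k : ℤ))).powerset.filter IsVertexSet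

/-- The graph `Λ(d,k)`: two polytopes are adjacent when one is obtained from the other by
inserting one vertex. -/
def Lam (d k : ℕ) : SimpleGraph {V : Finset (Fin d → ℤ) // V ∈ polys d k} where
  Adj V W := (∃ x ∉ V.1, W.1 = insert x V.1) ∨ (∃ x ∉ W.1, V.1 = insert x W.1)
  symm := ⟨fun _ _ h => h.symm⟩
  loopless := ⟨fun V h => by
    rcases h with ⟨x, hx, h⟩ | ⟨x, hx, h⟩
    · exact hx (by rw [h]; exact Finset.mem_insert_self _ _)
    · exact hx (by rw [h]; exact Finset.mem_insert_self _ _)⟩

open Classical in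
/-- Number of edges between `S` and its complement. -/
noncomputable def cut {α : Type*} [Fintype α] (G : SimpleGraph α) (S : Finset α) : ℕ :=
  ((Finset.univ : Finset (α × α)).filter
    (fun p => p.1 ∈ S ∧ p.2 ∉ S ∧ G.Adj p.1 p.2)).card

open Classical in
/-- Sum of the degrees of the vertices in `S`. -/
noncomputable def vol {α : Type*} [Fintype α] (G : SimpleGraph α) (S : Finset α) : ℕ :=
  ∑ v ∈ S, (Finset.univ.filter (fun w => G.Adj v w)).card

/-- `h(G) ≤ ε`. -/
def SparseCut {α : Type*} [Fintype α] (G : SimpleGraph α) (ε : ℝ) : Prop :=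
  ∃ S : Finset α, S.Nonempty ∧ 2 * S.card ≤ Fintype.card α ∧ (cut G S : ℝ) ≤ ε * S.card

/-- `Φ(G) ≤ ε`. -/
def SparseVolCut {α : Type*} [Fintype α] (G : SimpleGraph α) (ε : ℝ) : Prop :=
  ∃ S : Finset α, 0 < vol G S ∧ 2 * vol G S ≤ vol G Finset.univ ∧ (cut G S : ℝ) ≤ ε * vol G S

theorem cut_le_card {α β : Type*} [Fintype α] (G : SimpleGraph α) (S : Finset α)
    (T : Finset β) (f : α → α → β)
    (h1 : ∀ a b, a ∈ S → b ∉ S → G.Adj a b → f a b ∈ T)
    (h2 : ∀ a b a' b', a ∈ S → b ∉ S → G.Adj a b → a' ∈ S → b' ∉ S → G.Adj a' b' →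
      f a b = f a' b' → a = a' ∧ b = b') : cut G S ≤ T.card := by
  classical
  unfold cut
  apply Finset.card_le_card_of_injOn (fun p => f p.1 p.2)
  · rintro ⟨a, b⟩ hp
    rw [Finset.mem_coe, Finset.mem_filter] at hp
    exact h1 a b hp.2.1 hp.2.2.1 hp.2.2.2
  · rintro ⟨a, b⟩ hp ⟨a', b'⟩ hp' h
    rw [Finset.mem_coe, Finset.mem_filter] at hp hp'
    have := h2 a b a' b' hp.2.1 hp.2.2.1 hp.2.2.2 hp'.2.1 hp'.2.2.1 hp'.2.2.2 h
    rw [this.1, this.2]

theorem toR_injective {d : ℕ} : Function.Injective (toR (d := d)) := by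
  intro v w h
  funext i
  have := congrFun h i
  simpa [toR] using this

theorem mem_polys {d k : ℕ} {V : Finset (Fin d → ℤ)} :
    V ∈ polys d k ↔ (∀ v ∈ V, ∀ i, 0 ≤ v i ∧ v i ≤ k) ∧ IsVertexSet V := by
  classical
  unfold polys
  rw [Finset.mem_filter, Finset.mem_powerset]
  constructor
  · rintro ⟨h, h2⟩
    refine ⟨fun v hv i => ?_, h2⟩
    have := h hv
    rw [Finset.mem_Icc] at this
    exact ⟨this.1 i, this.2 i⟩
  · rintro ⟨h, h2⟩
    refine ⟨fun v hv => ?_, h2⟩
    rw [Finset.mem_Icc]
    exact ⟨fun i => (h v hv i).1, fun i => (h v hv i).2⟩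

/-- A point exposed by a linear functional is not in the hull of the others. -/
theorem not_mem_hull_of_exposed {d : ℕ} {A : Set (Fin d → ℤ)} {x : Fin d → ℤ}
    (l : (Fin d → ℝ) →ₗ[ℝ] ℝ) (h : ∀ y ∈ A, l (toR y) < l (toR x)) :
    toR x ∉ convexHull ℝ (toR '' A) := by
  intro hx
  have hsub : convexHull ℝ (toR '' A) ⊆ {z | l z < l (toR x)} := by
    apply convexHull_min
    · rintro _ ⟨y, hy, rfl⟩
      exact h y hy
    · exact convex_halfSpace_lt l.isLinear _
  have h2 : l (toR x) < l (toR x) := hsub hx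
  exact lt_irrefl _ h2

theorem finite_toR_image {d : ℕ} (V : Finset (Fin d → ℤ)) (A : Set (Fin d → ℤ))
    (hA : A ⊆ (V : Set (Fin d → ℤ))) : (toR '' A).Finite :=
  (V.finite_toSet.subset hA).image _

/-- Separation of a point from the hull of a finite set. -/
theorem exists_exposing {d : ℕ} (V : Finset (Fin d → ℤ)) (A : Set (Fin d → ℤ))
    (hA : A ⊆ (V : Set (Fin d → ℤ))) {p : Fin d → ℝ}
    (hp : p ∉ convexHull ℝ (toR '' A)) :
    ∃ l : (Fin d → ℝ) →L[ℝ] ℝ, ∀ z ∈ convexHull ℝ (toR '' A), l z < l p := by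
  have hfin := finite_toR_image V A hA
  obtain ⟨f, u, h1, h2⟩ := geometric_hahn_banach_closed_point (convex_convexHull ℝ (toR '' A))
    (hfin.isClosed_convexHull (𝕜 := ℝ)) hp
  exact ⟨f, fun z hz => (h1 z hz).trans h2⟩

/-- Every finite set contains a convexly independent subset with the same hull. -/
theorem exists_indep_subset {d : ℕ} : ∀ (n : ℕ) (V : Finset (Fin d → ℤ)), V.card = n →
    ∃ W ⊆ V, Indep W ∧
      convexHull ℝ (toR '' (W : Set (Fin d → ℤ))) = convexHull ℝ (toR '' (V : Set (Fin d → ℤ))) := by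
  classical
  intro n
  induction n with
  | zero =>
    intro V hV
    rw [Finset.card_eq_zero] at hV
    subst hV
    exact ⟨∅, by simp, by intro x hx; simp at hx, rfl⟩
  | succ n ih =>
    intro V hV
    by_cases hI : Indep V
    · exact ⟨V, Finset.Subset.refl _, hI, rfl⟩
    · unfold Indep at hI
      push Not at hI
      obtain ⟨x, hx, hxh⟩ := hI
      have hcard : (V.erase x).card = n := by rw [Finset.card_erase_of_mem hx]; omega
      obtain ⟨W, hW, hWI, hWh⟩ := ih (V.erase x) hcard
      refine ⟨W, hW.trans (Finset.erase_subset _ _), hWI, ?_⟩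
      rw [hWh]
      apply Set.Subset.antisymm
      · apply convexHull_mono
        apply Set.image_mono
        intro y hy
        exact Finset.mem_of_mem_erase hy
      · apply convexHull_min _ (convex_convexHull ℝ _)
        rintro _ ⟨y, hy, rfl⟩
        by_cases hyx : y = x
        · subst hyx
          have : ((V.erase y : Finset (Fin d → ℤ)) : Set (Fin d → ℤ))
              = (V : Set (Fin d → ℤ)) \ {y} := by
            simp
          rw [this]
          exact hxh
        · apply subset_convexHull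
          exact ⟨y, by simp [hyx]; exact hy, rfl⟩

theorem subset_of_hull_subset {d : ℕ} {V W : Finset (Fin d → ℤ)} (hV : Indep V)
    (h1 : convexHull ℝ (toR '' (V : Set (Fin d → ℤ)))
      = convexHull ℝ (toR '' (W : Set (Fin d → ℤ)))) : V ⊆ W := by
  classical
  intro x hx
  by_contra hxW
  obtain ⟨l, hl⟩ := exists_exposing V _ (Set.sdiff_subset) (hV x hx)
  -- every point of the hull of `V` other than `x` has smaller value
  have key : ∀ z ∈ convexHull ℝ (toR '' (V : Set (Fin d → ℤ))), z ≠ toR x → l z < l (toR x) := by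
    intro z hz hzx
    have hins : (toR '' (V : Set (Fin d → ℤ)))
        = insert (toR x) (toR '' ((V : Set (Fin d → ℤ)) \ {x})) := by
      rw [← Set.image_insert_eq, Set.insert_sdiff_singleton, Set.insert_eq_of_mem]
      exact hx
    by_cases hne : (toR '' ((V : Set (Fin d → ℤ)) \ {x})).Nonempty
    · rw [hins, convexHull_insert hne] at hz
      rw [mem_convexJoin] at hz
      obtain ⟨a, ha, b, hb, hz⟩ := hz
      rw [Set.mem_singleton_iff] at ha
      subst ha
      obtain ⟨α, β, hα, hβ, hαβ, rfl⟩ := hz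
      have hb' := hl b hb
      rw [map_add, map_smul, map_smul, smul_eq_mul, smul_eq_mul]
      rcases hβ.lt_or_eq with hβ | hβ
      · have hα' : α = 1 - β := by linarith
        subst hα'
        have := mul_lt_mul_of_pos_left hb' hβ
        nlinarith
      · exfalso
        apply hzx
        have : α = 1 := by linarith
        rw [this, ← hβ]
        simp
    · rw [Set.not_nonempty_iff_eq_empty] at hne
      rw [hins, hne] at hz
      simp at hz
      exact absurd hz hzx
  have hsub : convexHull ℝ (toR '' (W : Set (Fin d → ℤ))) ⊆ {z | l z < l (toR x)} := by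
    apply convexHull_min
    · rintro _ ⟨y, hy, rfl⟩
      apply key
      · rw [h1]
        exact subset_convexHull ℝ _ ⟨y, hy, rfl⟩
      · intro h
        exact hxW (toR_injective h ▸ hy)
    · exact convex_halfSpace_lt (l : (Fin d → ℝ) →ₗ[ℝ] ℝ).isLinear _
  have : toR x ∈ convexHull ℝ (toR '' (W : Set (Fin d → ℤ))) := by
    rw [← h1]
    exact subset_convexHull ℝ _ ⟨x, hx, rfl⟩
  have h2 : l (toR x) < l (toR x) := hsub this
  exact lt_irrefl _ h2

theorem eq_of_hull_eq {d : ℕ} {V W : Finset (Fin d → ℤ)} (hV : Indep V) (hW : Indep W)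
    (h1 : convexHull ℝ (toR '' (V : Set (Fin d → ℤ)))
      = convexHull ℝ (toR '' (W : Set (Fin d → ℤ)))) : V = W :=
  Finset.Subset.antisymm (subset_of_hull_subset hV h1) (subset_of_hull_subset hW h1.symm)

theorem Indep.mono {d : ℕ} {V W : Finset (Fin d → ℤ)} (hW : Indep W) (h : V ⊆ W) : Indep V := by
  intro x hx hxh
  apply hW x (h hx)
  refine convexHull_mono (Set.image_mono ?_) hxh
  intro y hy
  exact ⟨h hy.1, hy.2⟩

/-- Translations preserve vertex sets. -/
theorem isVertexSet_translate {d : ℕ} {V : Finset (Fin d → ℤ)} (hV : IsVertexSet V)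
    (c : Fin d → ℤ) : IsVertexSet (V.map (addLeftEmbedding c)) := by
  classical
  have hset : ∀ A : Set (Fin d → ℤ), toR '' ((fun v => c + v) '' A)
      = (AffineEquiv.constVAdd ℝ (Fin d → ℝ) (toR c)).toAffineMap '' (toR '' A) := by
    intro A
    rw [Set.image_image, Set.image_image]
    apply Set.image_congr
    intro v _
    funext i
    simp [toR]
  have hcoe : ((V.map (addLeftEmbedding c) : Finset (Fin d → ℤ)) : Set (Fin d → ℤ))
      = (fun v => c + v) '' (V : Set (Fin d → ℤ)) := by
    rw [Finset.coe_map]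
    rfl
  constructor
  · intro x' hx'
    rw [Finset.mem_map] at hx'
    obtain ⟨x, hx, rfl⟩ := hx'
    have hd : ((V.map (addLeftEmbedding c) : Finset (Fin d → ℤ)) : Set (Fin d → ℤ))
        \ {(addLeftEmbedding c) x} = (fun v => c + v) '' ((V : Set (Fin d → ℤ)) \ {x}) := by
      rw [hcoe, Set.image_sdiff (add_right_injective c), Set.image_singleton]
      rfl
    rw [hd, hset, ← AffineMap.image_convexHull]
    rintro ⟨z, hz, hzx⟩
    apply hV.1 x hx
    have : z = toR x := by
      have h2 : (AffineEquiv.constVAdd ℝ (Fin d → ℝ) (toR c)).toAffineMap (toR x)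
          = toR ((addLeftEmbedding c) x) := by
        funext i
        simp [toR]
      rw [← h2] at hzx
      exact (AffineEquiv.constVAdd ℝ (Fin d → ℝ) (toR c)).injective hzx
    rw [← this]
    exact hz
  · rw [hcoe, hset, ← AffineSubspace.map_span, hV.2]
    exact AffineMap.map_top_of_surjective _
      (AffineEquiv.constVAdd ℝ (Fin d → ℝ) (toR c)).surjective

/-- Two finite sets with the same hull: vertex set property transfers the span. -/
theorem affineSpan_eq_of_hull {d : ℕ} {V W : Finset (Fin d → ℤ)}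
    (h : convexHull ℝ (toR '' (V : Set (Fin d → ℤ)))
      = convexHull ℝ (toR '' (W : Set (Fin d → ℤ)))) :
    affineSpan ℝ (toR '' (V : Set (Fin d → ℤ))) = affineSpan ℝ (toR '' (W : Set (Fin d → ℤ))) := by
  rw [← affineSpan_convexHull, h, affineSpan_convexHull]

end Pool.Agent.Q179.LPM
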