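import Mathlib

/-!
# Strictly concave lattice chains are short
-/

namespace Pool.Agent.Q179.LPM

theorem chain_slopes {p q r s fp fq fr fs : ℤ} (h1 : p < q) (h2 : q < r) (h3 : r < s)
    (c1 : (fr - fq) * (q - p) < (fq - fp) * (r - q))
    (c2 : (fs - fr) * (r - q) < (fr - fq) * (s - r)) :
    (fs - fr) * (q - p) < (fq - fp) * (s - r) := by
  have a1 : 0 < q - p := by omega
  have a2 : 0 < r - q := by omega
  have a3 : 0 < s - r := by omega
  have e1 := mul_lt_mul_of_pos_right c1 a3
  have e2 := mul_lt_mul_of_pos_right c2 a1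
  have e3 : ((fs - fr) * (q - p)) * (r - q) < ((fq - fp) * (s - r)) * (r - q) := by
    nlinarith
  exact lt_of_mul_lt_mul_right e3 a2.le

/-- A strictly concave integer function on a set `X` of integers in `[0,k]` with values in
`[0,k]`: the set `X` is small. -/
theorem chain_card (k A : ℕ) (X : Finset ℤ) (f : ℤ → ℤ)
    (hX : ∀ x ∈ X, 0 ≤ x ∧ x ≤ k) (hf : ∀ x ∈ X, 0 ≤ f x ∧ f x ≤ k)
    (hc : ∀ p ∈ X, ∀ q ∈ X, ∀ r ∈ X, p < q → q < r →
      (f r - f q) * (q - p) < (f q - f p) * (r - q)) :
    (X.card : ℤ) ≤ 1 + A * (2 * A + 1) + 3 * (k / (A + 1)) := by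
  classical
  rcases Nat.eq_zero_or_pos X.card with h0 | hpos
  · rw [h0]
    positivity
  set m := X.card with hm
  let x : ℕ → ℤ := fun i => if h : i < m then X.orderEmbOfFin hm.symm ⟨i, h⟩ else 0
  have hxmem : ∀ i, i < m → x i ∈ X := by
    intro i hi
    simp only [x, hi, dite_true]
    exact Finset.orderEmbOfFin_mem _ _ _
  have hxlt : ∀ i j, i < j → j < m → x i < x j := by
    intro i j hij hj
    simp only [x, hj, dite_true, hij.trans hj]
    exact (X.orderEmbOfFin hm.symm).strictMono (by simpa using hij)
  set a : ℕ → ℤ := fun i => x (i + 1) - x i with ha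
  set b : ℕ → ℤ := fun i => f (x (i + 1)) - f (x i) with hb
  have hapos : ∀ i, i + 1 < m → 0 < a i := by
    intro i hi
    have := hxlt i (i + 1) (Nat.lt_succ_self i) hi
    simp only [ha]
    omega
  have hslope : ∀ i j, i < j → j + 1 < m → b j * a i < b i * a j := by
    intro i j hij hj
    simp only [ha, hb]
    rcases Nat.lt_or_ge (i + 1) j with h | h
    · exact chain_slopes (hxlt i (i + 1) (by omega) (by omega)) (hxlt (i + 1) j h (by omega))
        (hxlt j (j + 1) (by omega) hj)
        (hc _ (hxmem i (by omega)) _ (hxmem (i + 1) (by omega)) _ (hxmem j (by omega))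
          (hxlt i (i + 1) (by omega) (by omega)) (hxlt (i + 1) j h (by omega)))
        (hc _ (hxmem (i + 1) (by omega)) _ (hxmem j (by omega)) _ (hxmem (j + 1) (by omega))
          (hxlt (i + 1) j h (by omega)) (hxlt j (j + 1) (by omega) hj))
    · have : j = i + 1 := by omega
      subst this
      exact hc _ (hxmem i (by omega)) _ (hxmem (i + 1) (by omega)) _ (hxmem (i + 1 + 1) (by omega))
        (hxlt i (i + 1) (by omega) (by omega)) (hxlt (i + 1) (i + 1 + 1) (by omega) hj)
  set I := Finset.range (m - 1) with hI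
  set I1 := I.filter (fun i => a i ≤ A ∧ |b i| ≤ A) with hI1
  set I2 := I.filter (fun i => (A : ℤ) < a i) with hI2
  set I3 := I.filter (fun i => (A : ℤ) < b i) with hI3
  set I4 := I.filter (fun i => b i < -(A : ℤ)) with hI4
  have hcover : I ⊆ I1 ∪ I2 ∪ I3 ∪ I4 := by
    intro i hi
    simp only [hI1, hI2, hI3, hI4, Finset.mem_union, Finset.mem_filter, hi, true_and]
    by_cases h1 : a i ≤ A
    · by_cases h2 : |b i| ≤ A
      · exact Or.inl (Or.inl (Or.inl ⟨h1, h2⟩))
      · rw [abs_le] at h2
        by_cases h3 : (A : ℤ) < b i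
        · exact Or.inl (Or.inr h3)
        · right
          by_contra h4
          exact h2 ⟨by omega, by omega⟩
    · exact Or.inl (Or.inl (Or.inr (by omega)))
  have hmemI : ∀ i, i ∈ I ↔ i + 1 < m := by
    intro i
    rw [hI, Finset.mem_range]
    omega
  -- small steps
  have hc1 : (I1.card : ℤ) ≤ A * (2 * A + 1) := by
    have : I1.card ≤ (Finset.Icc (1 : ℤ) A ×ˢ Finset.Icc (-(A : ℤ)) A).card := by
      apply Finset.card_le_card_of_injOn (fun i => (a i, b i))
      · intro i hi
        rw [Finset.mem_coe, hI1, Finset.mem_filter, hmemI] at hi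
        rw [Finset.mem_coe, Finset.mem_product, Finset.mem_Icc, Finset.mem_Icc]
        have := hapos i hi.1
        have h2 := abs_le.1 hi.2.2
        exact ⟨⟨by show 1 ≤ a i; omega, hi.2.1⟩, h2⟩
      · intro i hi j hj hij
        rw [Finset.mem_coe, hI1, Finset.mem_filter, hmemI] at hi hj
        simp only [Prod.mk.injEq] at hij
        by_contra hne
        rcases Nat.lt_or_gt_of_ne hne with h | h
        · have := hslope i j h hj.1
          rw [hij.1, hij.2] at this
          exact lt_irrefl _ this
        · have := hslope j i h hi.1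
          rw [hij.1, hij.2] at this
          exact lt_irrefl _ this
    rw [Finset.card_product, Int.card_Icc, Int.card_Icc] at this
    have e1 : ((A : ℤ) + 1 - 1).toNat = A := by omega
    have e2 : ((A : ℤ) + 1 - -(A : ℤ)).toNat = 2 * A + 1 := by omega
    rw [e1, e2] at this
    exact_mod_cast this
  have hdiv : ∀ c : ℕ, ((c : ℤ) * (A + 1) ≤ k) → (c : ℤ) ≤ (k : ℤ) / (A + 1) := by
    intro c hc
    rw [Int.le_ediv_iff_mul_le (by positivity)]
    exact hc
  have htel : ∀ (g : ℕ → ℤ) (n : ℕ), ∑ i ∈ Finset.range n, (g (i + 1) - g i) = g n - g 0 :=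
    fun g n => Finset.sum_range_sub g n
  -- long horizontal steps
  have hc2 : (I2.card : ℤ) ≤ (k : ℤ) / (A + 1) := by
    apply hdiv
    have h1 : (I2.card : ℤ) * (A + 1) ≤ ∑ i ∈ I2, a i := by
      rw [← nsmul_eq_mul]
      apply Finset.card_nsmul_le_sum
      intro i hi
      rw [hI2, Finset.mem_filter] at hi
      omega
    have h2 : ∑ i ∈ I2, a i ≤ ∑ i ∈ I, a i := by
      apply Finset.sum_le_sum_of_subset_of_nonneg (Finset.filter_subset _ _)
      intro i hi _
      exact (hapos i ((hmemI i).1 hi)).le
    have h3 : ∑ i ∈ I, a i = x (m - 1) - x 0 := htel x (m - 1)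
    have h4 := hX _ (hxmem (m - 1) (by omega))
    have h5 := hX _ (hxmem 0 hpos)
    omega
  -- the sign of the vertical steps
  have hpos_down : ∀ i j, i < j → j + 1 < m → 0 < b j → 0 < b i := by
    intro i j hij hj hbj
    have h1 := hslope i j hij hj
    have h2 := hapos i (by omega)
    have h3 := hapos j hj
    by_contra hn
    have h4 : b i * a j ≤ 0 := mul_nonpos_of_nonpos_of_nonneg (not_lt.1 hn) h3.le
    have h5 : 0 < b j * a i := mul_pos hbj h2
    omega
  have hneg_up : ∀ i j, i < j → j + 1 < m → b i < 0 → b j < 0 := by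
    intro i j hij hj hbi
    have h1 := hslope i j hij hj
    have h2 := hapos i (by omega)
    have h3 := hapos j hj
    by_contra hn
    have h4 : 0 ≤ b j * a i := mul_nonneg (not_lt.1 hn) h2.le
    have h5 : b i * a j < 0 := mul_neg_of_neg_of_pos hbi h3
    omega
  have hc3 : (I3.card : ℤ) ≤ (k : ℤ) / (A + 1) := by
    apply hdiv
    have hex : ∃ c, c + 1 = m ∨ (c + 1 < m ∧ b c ≤ 0) := ⟨m - 1, Or.inl (by omega)⟩
    set c := Nat.find hex with hcdef
    have hcspec := Nat.find_spec hex
    have hcmin : ∀ i, i < c → 0 < b i := by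
      intro i hi
      have h := Nat.find_min hex hi
      push Not at h
      have h1 : i + 1 ≠ m := h.1
      have h2 : i + 1 < m := by
        rcases hcspec with h3 | h3
        · rw [← hcdef] at h3
          omega
        · have := h3.1
          rw [← hcdef] at this
          omega
      exact h.2 h2
    have hsub : I3 ⊆ Finset.range c := by
      intro i hi
      rw [hI3, Finset.mem_filter, hmemI] at hi
      rw [Finset.mem_range]
      by_contra hn
      rw [not_lt] at hn
      rcases hcspec with h3 | h3
      · rw [← hcdef] at h3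
        omega
      · rw [← hcdef] at h3
        have hbi : 0 < b i := lt_of_le_of_lt (by positivity) hi.2
        rcases hn.lt_or_eq with h | h
        · have := hpos_down c i h hi.1 hbi
          omega
        · rw [← h] at hbi
          omega
    have h1 : (I3.card : ℤ) * (A + 1) ≤ ∑ i ∈ I3, b i := by
      rw [← nsmul_eq_mul]
      apply Finset.card_nsmul_le_sum
      intro i hi
      rw [hI3, Finset.mem_filter] at hi
      omega
    have h2 : ∑ i ∈ I3, b i ≤ ∑ i ∈ Finset.range c, b i := by
      apply Finset.sum_le_sum_of_subset_of_nonneg hsub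
      intro i hi _
      exact (hcmin i (Finset.mem_range.1 hi)).le
    have h3 : ∑ i ∈ Finset.range c, b i = f (x c) - f (x 0) := htel (fun i => f (x i)) c
    have hcm : c < m := by
      rcases hcspec with h3 | h3
      · rw [← hcdef] at h3
        omega
      · rw [← hcdef] at h3
        omega
    have h4 := hf _ (hxmem c hcm)
    have h5 := hf _ (hxmem 0 hpos)
    omega
  have hc4 : (I4.card : ℤ) ≤ (k : ℤ) / (A + 1) := by
    apply hdiv
    have hex : ∃ c, c + 1 = m ∨ (c + 1 < m ∧ b c < 0) := ⟨m - 1, Or.inl (by omega)⟩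
    set c := Nat.find hex with hcdef
    have hcspec := Nat.find_spec hex
    have hcm : c < m := by
      rcases hcspec with h3 | h3
      · rw [← hcdef] at h3
        omega
      · rw [← hcdef] at h3
        omega
    have hneg : ∀ i, c ≤ i → i + 1 < m → b i < 0 := by
      intro i hi him
      rcases hcspec with h3 | h3
      · rw [← hcdef] at h3
        omega
      · rw [← hcdef] at h3
        rcases hi.lt_or_eq with h | h
        · exact hneg_up c i h him h3.2
        · rw [← h]
          exact h3.2
    have hsub : I4 ⊆ Finset.Ico c (m - 1) := by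
      intro i hi
      rw [hI4, Finset.mem_filter, hmemI] at hi
      rw [Finset.mem_Ico]
      refine ⟨?_, by omega⟩
      by_contra hn
      rw [not_le] at hn
      have := Nat.find_min hex (hcdef ▸ hn)
      push Not at this
      have := this.2 hi.1
      have h0 : (0 : ℤ) ≤ A := by positivity
      omega
    have h1 : (I4.card : ℤ) * (A + 1) ≤ ∑ i ∈ I4, (- b i) := by
      rw [← nsmul_eq_mul]
      apply Finset.card_nsmul_le_sum
      intro i hi
      rw [hI4, Finset.mem_filter] at hi
      omega
    have h2 : ∑ i ∈ I4, (- b i) ≤ ∑ i ∈ Finset.Ico c (m - 1), (- b i) := by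
      apply Finset.sum_le_sum_of_subset_of_nonneg hsub
      intro i hi _
      rw [Finset.mem_Ico] at hi
      have := hneg i hi.1 (by omega)
      omega
    have h3 : ∑ i ∈ Finset.Ico c (m - 1), (- b i) = f (x c) - f (x (m - 1)) := by
      rw [Finset.sum_Ico_eq_sub _ (by omega : c ≤ m - 1)]
      have e : ∀ n, ∑ i ∈ Finset.range n, (- b i) = -(f (x n) - f (x 0)) := by
        intro n
        rw [Finset.sum_neg_distrib]
        rw [htel (fun i => f (x i)) n]
      rw [e, e]
      ring
    have h4 := hf _ (hxmem c hcm)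
    have h5 := hf _ (hxmem (m - 1) (by omega))
    omega
  have htotal : I.card ≤ I1.card + I2.card + I3.card + I4.card := by
    calc I.card ≤ (I1 ∪ I2 ∪ I3 ∪ I4).card := Finset.card_le_card hcover
      _ ≤ (I1 ∪ I2 ∪ I3).card + I4.card := Finset.card_union_le _ _
      _ ≤ (I1 ∪ I2).card + I3.card + I4.card := by
          gcongr
          exact Finset.card_union_le _ _
      _ ≤ I1.card + I2.card + I3.card + I4.card := by
          gcongr
          exact Finset.card_union_le _ _
  have hIc : I.card = m - 1 := by rw [hI, Finset.card_range]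
  have : (m : ℤ) ≤ 1 + (I1.card + I2.card + I3.card + I4.card) := by
    have : m ≤ 1 + (I1.card + I2.card + I3.card + I4.card) := by omega
    exact_mod_cast this
  linarith

end Pool.Agent.Q179.LPM
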