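import Pool.Agent.Q179.LPM.Cut
import Pool.Agent.Q179.LPM.Chain

/-!
# Convexly independent lattice sets in a square are small
-/

open Set

namespace Pool.Agent.Q179.LPM

/-- A point on the chord `a b` with prescribed first coordinate. -/
theorem exists_on_chord {C : Set (Fin 2 → ℝ)} (hC : Convex ℝ C) {a b : Fin 2 → ℝ} {t : ℝ}
    (ha : a ∈ C) (hb : b ∈ C) (h1 : a 0 ≤ t) (h2 : t ≤ b 0) (hab : a 0 < b 0) :
    ∃ q ∈ C, q 0 = t ∧ (q 1 - a 1) * (b 0 - a 0) = (b 1 - a 1) * (t - a 0) := by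
  have hne : b 0 - a 0 ≠ 0 := by linarith
  have hpos : 0 < b 0 - a 0 := by linarith
  set s := (t - a 0) / (b 0 - a 0) with hs
  have hs0 : 0 ≤ s := div_nonneg (by linarith) hpos.le
  have hs1 : s ≤ 1 := by
    rw [hs, div_le_one hpos]
    linarith
  refine ⟨(1 - s) • a + s • b, hC ha hb (by linarith) hs0 (by ring), ?_, ?_⟩
  · simp only [Pi.add_apply, Pi.smul_apply, smul_eq_mul]
    rw [hs]
    field_simp
    ring
  · simp only [Pi.add_apply, Pi.smul_apply, smul_eq_mul]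
    rw [hs]
    field_simp
    ring

/-- Vertical interpolation. -/
theorem mem_of_vertical {C : Set (Fin 2 → ℝ)} (hC : Convex ℝ C) {p q r : Fin 2 → ℝ}
    (hq : q ∈ C) (hr : r ∈ C) (h0 : q 0 = p 0) (h1 : r 0 = p 0) (hqp : q 1 ≤ p 1)
    (hpr : p 1 ≤ r 1) : p ∈ C := by
  rcases (hqp.trans hpr).lt_or_eq with hlt | heq
  · have hpos : 0 < r 1 - q 1 := by linarith
    set s := (p 1 - q 1) / (r 1 - q 1) with hs
    have hs0 : 0 ≤ s := div_nonneg (by linarith) hpos.le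
    have hs1 : s ≤ 1 := by
      rw [hs, div_le_one hpos]
      linarith
    have : p = (1 - s) • q + s • r := by
      funext i
      fin_cases i
      · simp only [Pi.add_apply, Pi.smul_apply, smul_eq_mul, Fin.zero_eta]
        show p 0 = (1 - s) * q 0 + s * r 0
        rw [h0, h1]
        ring
      · show p 1 = (1 - s) * q 1 + s * r 1
        rw [hs]
        field_simp
        ring
    rw [this]
    exact hC hq hr (by linarith) hs0 (by ring)
  · have : p = q := by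
      funext i
      fin_cases i
      · exact h0.symm
      · show p 1 = q 1
        linarith
    rw [this]
    exact hq

/-- Twice the signed area of `l, r, v`. -/
def det3 (l r v : Fin 2 → ℤ) : ℤ := (r 0 - l 0) * (v 1 - l 1) - (r 1 - l 1) * (v 0 - l 0)

/-- Points of `V` other than `L`, `R` are not on the line `L R`. -/
theorem det3_ne_zero {V : Finset (Fin 2 → ℤ)} (hV : Indep V) {L R v : Fin 2 → ℤ}
    (hL : L ∈ V) (hR : R ∈ V) (hv : v ∈ V) (hLR : L 0 < R 0) (h1 : L 0 ≤ v 0) (h2 : v 0 ≤ R 0)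
    (hvL : v ≠ L) (hvR : v ≠ R) : det3 L R v ≠ 0 := by
  intro h
  apply hV v hv
  have hLC : toR L ∈ convexHull ℝ (toR '' ((V : Set (Fin 2 → ℤ)) \ {v})) :=
    subset_convexHull ℝ _ ⟨L, ⟨hL, fun e => hvL e.symm⟩, rfl⟩
  have hRC : toR R ∈ convexHull ℝ (toR '' ((V : Set (Fin 2 → ℤ)) \ {v})) :=
    subset_convexHull ℝ _ ⟨R, ⟨hR, fun e => hvR e.symm⟩, rfl⟩
  obtain ⟨q, hq, hq0, hq1⟩ := exists_on_chord (convex_convexHull ℝ _) (t := (v 0 : ℝ)) hLC hRC
    (by show (L 0 : ℝ) ≤ v 0; exact_mod_cast h1) (by show (v 0 : ℝ) ≤ R 0; exact_mod_cast h2)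
    (by show (L 0 : ℝ) < R 0; exact_mod_cast hLR)
  have hR' : ((R 0 : ℝ) - L 0) * (v 1 - L 1) = (R 1 - L 1) * (v 0 - L 0) := by
    have : (R 0 - L 0) * (v 1 - L 1) = (R 1 - L 1) * (v 0 - L 0) := by
      unfold det3 at h
      linarith
    exact_mod_cast this
  have hq1' : (q 1 - (L 1 : ℝ)) * ((R 0 : ℝ) - L 0) = ((R 1 : ℝ) - L 1) * (v 0 - L 0) := hq1
  have hpos : (0 : ℝ) < (R 0 : ℝ) - L 0 := by
    have : (L 0 : ℝ) < R 0 := by exact_mod_cast hLR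
    linarith
  have : q 1 = (v 1 : ℝ) := by
    have : (q 1 - (v 1 : ℝ)) * ((R 0 : ℝ) - L 0) = 0 := by linarith
    rcases mul_eq_zero.1 this with h3 | h3 <;> linarith
  exact mem_of_vertical (convex_convexHull ℝ _) hq hq hq0 hq0 this.le this.ge

/-- Two points above the line `L R` have different first coordinates. -/
theorem eq_of_same_x {V : Finset (Fin 2 → ℤ)} (hV : Indep V) {L R v w : Fin 2 → ℤ}
    (hL : L ∈ V) (hR : R ∈ V) (hv : v ∈ V) (hw : w ∈ V) (hLR : L 0 < R 0) (h1 : L 0 ≤ v 0)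
    (h2 : v 0 ≤ R 0) (hvd : 0 < det3 L R v) (hx : v 0 = w 0) (hlt : v 1 < w 1) : False := by
  apply hV v hv
  have hvL : L ≠ v := by
    rintro rfl
    simp [det3] at hvd
  have hvR : R ≠ v := by
    rintro rfl
    unfold det3 at hvd
    have : (R 0 - L 0) * (R 1 - L 1) - (R 1 - L 1) * (R 0 - L 0) = 0 := by ring
    omega
  have hvw : w ≠ v := by
    rintro rfl
    exact lt_irrefl _ hlt
  have hLC : toR L ∈ convexHull ℝ (toR '' ((V : Set (Fin 2 → ℤ)) \ {v})) :=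
    subset_convexHull ℝ _ ⟨L, ⟨hL, hvL⟩, rfl⟩
  have hRC : toR R ∈ convexHull ℝ (toR '' ((V : Set (Fin 2 → ℤ)) \ {v})) :=
    subset_convexHull ℝ _ ⟨R, ⟨hR, hvR⟩, rfl⟩
  have hwC : toR w ∈ convexHull ℝ (toR '' ((V : Set (Fin 2 → ℤ)) \ {v})) :=
    subset_convexHull ℝ _ ⟨w, ⟨hw, hvw⟩, rfl⟩
  obtain ⟨q, hq, hq0, hq1⟩ := exists_on_chord (convex_convexHull ℝ _) (t := (v 0 : ℝ)) hLC hRC
    (by show (L 0 : ℝ) ≤ v 0; exact_mod_cast h1) (by show (v 0 : ℝ) ≤ R 0; exact_mod_cast h2)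
    (by show (L 0 : ℝ) < R 0; exact_mod_cast hLR)
  have hR' : ((R 1 : ℝ) - L 1) * (v 0 - L 0) < (R 0 - L 0) * (v 1 - L 1) := by
    have : (R 1 - L 1) * (v 0 - L 0) < (R 0 - L 0) * (v 1 - L 1) := by
      unfold det3 at hvd
      linarith
    exact_mod_cast this
  have hq1' : (q 1 - (L 1 : ℝ)) * ((R 0 : ℝ) - L 0) = ((R 1 : ℝ) - L 1) * (v 0 - L 0) := hq1
  have hpos : (0 : ℝ) < (R 0 : ℝ) - L 0 := by
    have : (L 0 : ℝ) < R 0 := by exact_mod_cast hLR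
    linarith
  have hle : q 1 ≤ (v 1 : ℝ) := by
    by_contra hn
    rw [not_le] at hn
    have := mul_lt_mul_of_pos_right hn hpos
    nlinarith
  refine mem_of_vertical (convex_convexHull ℝ _) hq hwC hq0 ?_ hle ?_
  · show ((w 0 : ℤ) : ℝ) = ((v 0 : ℤ) : ℝ)
    exact_mod_cast hx.symm
  · show ((v 1 : ℤ) : ℝ) ≤ ((w 1 : ℤ) : ℝ)
    exact_mod_cast hlt.le

/-- Strict concavity of the upper chain. -/
theorem concave_of_indep {V : Finset (Fin 2 → ℤ)} (hV : Indep V) {L R p q r : Fin 2 → ℤ}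
    (hL : L ∈ V) (hR : R ∈ V) (hp : p ∈ V) (hq : q ∈ V) (hr : r ∈ V) (hLR : L 0 < R 0)
    (h1 : L 0 ≤ q 0) (h2 : q 0 ≤ R 0) (hqd : 0 < det3 L R q) (hpq : p 0 < q 0)
    (hqr : q 0 < r 0) : (r 1 - q 1) * (q 0 - p 0) < (q 1 - p 1) * (r 0 - q 0) := by
  by_contra hcon
  rw [not_lt] at hcon
  apply hV q hq
  have hvL : L ≠ q := by
    rintro rfl
    simp [det3] at hqd
  have hvR : R ≠ q := by
    rintro rfl
    unfold det3 at hqd
    have : (R 0 - L 0) * (R 1 - L 1) - (R 1 - L 1) * (R 0 - L 0) = 0 := by ring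
    omega
  have hpq' : p ≠ q := by
    rintro rfl
    exact lt_irrefl _ hpq
  have hrq' : r ≠ q := by
    rintro rfl
    exact lt_irrefl _ hqr
  have hLC : toR L ∈ convexHull ℝ (toR '' ((V : Set (Fin 2 → ℤ)) \ {q})) :=
    subset_convexHull ℝ _ ⟨L, ⟨hL, hvL⟩, rfl⟩
  have hRC : toR R ∈ convexHull ℝ (toR '' ((V : Set (Fin 2 → ℤ)) \ {q})) :=
    subset_convexHull ℝ _ ⟨R, ⟨hR, hvR⟩, rfl⟩
  have hpC : toR p ∈ convexHull ℝ (toR '' ((V : Set (Fin 2 → ℤ)) \ {q})) :=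
    subset_convexHull ℝ _ ⟨p, ⟨hp, hpq'⟩, rfl⟩
  have hrC : toR r ∈ convexHull ℝ (toR '' ((V : Set (Fin 2 → ℤ)) \ {q})) :=
    subset_convexHull ℝ _ ⟨r, ⟨hr, hrq'⟩, rfl⟩
  obtain ⟨a, ha, ha0, ha1⟩ := exists_on_chord (convex_convexHull ℝ _) (t := (q 0 : ℝ)) hLC hRC
    (by show (L 0 : ℝ) ≤ q 0; exact_mod_cast h1) (by show (q 0 : ℝ) ≤ R 0; exact_mod_cast h2)
    (by show (L 0 : ℝ) < R 0; exact_mod_cast hLR)
  obtain ⟨b, hb, hb0, hb1⟩ := exists_on_chord (convex_convexHull ℝ _) (t := (q 0 : ℝ)) hpC hrC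
    (by show (p 0 : ℝ) ≤ q 0; exact_mod_cast hpq.le) (by show (q 0 : ℝ) ≤ r 0; exact_mod_cast hqr.le)
    (by show (p 0 : ℝ) < r 0; exact_mod_cast hpq.trans hqr)
  have ha1' : (a 1 - (L 1 : ℝ)) * ((R 0 : ℝ) - L 0) = ((R 1 : ℝ) - L 1) * (q 0 - L 0) := ha1
  have hb1' : (b 1 - (p 1 : ℝ)) * ((r 0 : ℝ) - p 0) = ((r 1 : ℝ) - p 1) * (q 0 - p 0) := hb1
  have hR' : ((R 1 : ℝ) - L 1) * (q 0 - L 0) < (R 0 - L 0) * (q 1 - L 1) := by
    have : (R 1 - L 1) * (q 0 - L 0) < (R 0 - L 0) * (q 1 - L 1) := by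
      unfold det3 at hqd
      linarith
    exact_mod_cast this
  have hpos : (0 : ℝ) < (R 0 : ℝ) - L 0 := by
    have : (L 0 : ℝ) < R 0 := by exact_mod_cast hLR
    linarith
  have hpos2 : (0 : ℝ) < (r 0 : ℝ) - p 0 := by
    have : (p 0 : ℝ) < r 0 := by exact_mod_cast hpq.trans hqr
    linarith
  have hle : a 1 ≤ (q 1 : ℝ) := by
    by_contra hn
    rw [not_le] at hn
    have := mul_lt_mul_of_pos_right hn hpos
    nlinarith
  have hle2 : (q 1 : ℝ) ≤ b 1 := by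
    by_contra hn
    rw [not_le] at hn
    have h3 := mul_lt_mul_of_pos_right hn hpos2
    have h4 : ((q 1 : ℝ) - p 1) * (r 0 - q 0) ≤ (r 1 - q 1) * (q 0 - p 0) := by
      exact_mod_cast hcon
    nlinarith
  exact mem_of_vertical (convex_convexHull ℝ _) ha hb ha0 hb0 hle hle2

/-- Points of `V` strictly above the line `L R` form a short chain. -/
theorem card_above {k A : ℕ} {V : Finset (Fin 2 → ℤ)} (hV : Indep V)
    (hbox : ∀ v ∈ V, (0 ≤ v 0 ∧ v 0 ≤ k) ∧ (0 ≤ v 1 ∧ v 1 ≤ k)) {L R : Fin 2 → ℤ}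
    (hL : L ∈ V) (hR : R ∈ V) (hLR : L 0 < R 0) (hmin : ∀ v ∈ V, L 0 ≤ v 0 ∧ v 0 ≤ R 0) :
    (((V.filter (fun v => 0 < det3 L R v)).card : ℕ) : ℤ)
      ≤ 1 + A * (2 * A + 1) + 3 * (k / (A + 1)) := by
  classical
  set T := V.filter (fun v => 0 < det3 L R v) with hT
  have hinj : Set.InjOn (fun v : Fin 2 → ℤ => v 0) (T : Set (Fin 2 → ℤ)) := by
    intro v hv w hw hvw
    rw [Finset.mem_coe, hT, Finset.mem_filter] at hv hw
    have hvw' : v 0 = w 0 := hvw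
    rcases lt_trichotomy (v 1) (w 1) with h | h | h
    · exact (eq_of_same_x hV hL hR hv.1 hw.1 hLR (hmin v hv.1).1 (hmin v hv.1).2 hv.2 hvw' h).elim
    · funext i
      fin_cases i
      · exact hvw'
      · exact h
    · exact (eq_of_same_x hV hL hR hw.1 hv.1 hLR (hmin w hw.1).1 (hmin w hw.1).2 hw.2
        hvw'.symm h).elim
  let f : ℤ → ℤ := fun x => if h : ∃ v ∈ T, v 0 = x then (Classical.choose h) 1 else 0
  have hf : ∀ v ∈ T, f (v 0) = v 1 := by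
    intro v hv
    have h : ∃ w ∈ T, w 0 = v 0 := ⟨v, hv, rfl⟩
    have h2 := Classical.choose_spec h
    have : Classical.choose h = v := hinj h2.1 hv h2.2
    simp only [f, h, dite_true]
    rw [this]
  have hcard : (T.image (fun v => v 0)).card = T.card := Finset.card_image_of_injOn hinj
  rw [← hcard]
  apply chain_card k A (T.image (fun v => v 0)) f
  · intro x hx
    rw [Finset.mem_image] at hx
    obtain ⟨v, hv, rfl⟩ := hx
    exact (hbox v (Finset.mem_filter.1 hv).1).1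
  · intro x hx
    rw [Finset.mem_image] at hx
    obtain ⟨v, hv, rfl⟩ := hx
    rw [hf v hv]
    exact (hbox v (Finset.mem_filter.1 hv).1).2
  · intro p hp q hq r hr hpq hqr
    rw [Finset.mem_image] at hp hq hr
    obtain ⟨p, hp, rfl⟩ := hp
    obtain ⟨q, hq, rfl⟩ := hq
    obtain ⟨r, hr, rfl⟩ := hr
    rw [hf p hp, hf q hq, hf r hr]
    have hp' := Finset.mem_filter.1 hp
    have hq' := Finset.mem_filter.1 hq
    have hr' := Finset.mem_filter.1 hr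
    exact concave_of_indep hV hL hR hp'.1 hq'.1 hr'.1 hLR (hmin q hq'.1).1 (hmin q hq'.1).2
      hq'.2 hpq hqr

end Pool.Agent.Q179.LPM
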