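import Pool.Agent.Q179.LPM.Basic

/-!
# The cut by the leftmost coordinate in the plane
-/

open Set

namespace Pool.Agent.Q179.LPM

open Classical in
/-- Vertex sets of lattice polygons in `[0,a] × [0,b]`. -/
noncomputable def F (a b : ℤ) : Finset (Finset (Fin 2 → ℤ)) :=
  (Finset.Icc (![0, 0] : Fin 2 → ℤ) ![a, b]).powerset.filter IsVertexSet

theorem mem_F {a b : ℤ} {V : Finset (Fin 2 → ℤ)} :
    V ∈ F a b ↔ (∀ v ∈ V, (0 ≤ v 0 ∧ v 0 ≤ a) ∧ (0 ≤ v 1 ∧ v 1 ≤ b)) ∧ IsVertexSet V := by
  classical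
  unfold F
  rw [Finset.mem_filter, Finset.mem_powerset]
  constructor
  · rintro ⟨h, h2⟩
    refine ⟨fun v hv => ?_, h2⟩
    have := h hv
    rw [Finset.mem_Icc, Pi.le_def, Pi.le_def, Fin.forall_fin_two, Fin.forall_fin_two] at this
    simpa using ⟨⟨this.1.1, this.2.1⟩, ⟨this.1.2, this.2.2⟩⟩
  · rintro ⟨h, h2⟩
    refine ⟨fun v hv => ?_, h2⟩
    rw [Finset.mem_Icc, Pi.le_def, Pi.le_def, Fin.forall_fin_two, Fin.forall_fin_two]
    have := h v hv
    simpa using ⟨⟨this.1.1, this.2.1⟩, ⟨this.1.2, this.2.2⟩⟩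

theorem polys_two (k : ℕ) : polys 2 k = F k k := by
  ext V
  rw [mem_polys, mem_F]
  constructor
  · rintro ⟨h, h2⟩
    exact ⟨fun v hv => ⟨h v hv 0, h v hv 1⟩, h2⟩
  · rintro ⟨h, h2⟩
    refine ⟨fun v hv i => ?_, h2⟩
    fin_cases i
    · exact (h v hv).1
    · exact (h v hv).2

theorem F_mono {a b a' b' : ℤ} (ha : a ≤ a') (hb : b ≤ b') : F a b ⊆ F a' b' := by
  intro V hV
  rw [mem_F] at hV ⊢
  refine ⟨fun v hv => ?_, hV.2⟩
  have := hV.1 v hv
  omega

/-- The set of polygons in `[0,k]^2` with all points at `x ≥ t`. -/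
noncomputable def St (k t : ℤ) : Finset (Finset (Fin 2 → ℤ)) := by
  classical
  exact (F k k).filter (fun V => ∀ v ∈ V, t ≤ v 0)

theorem mem_St {k t : ℤ} {V : Finset (Fin 2 → ℤ)} :
    V ∈ St k t ↔ V ∈ F k k ∧ ∀ v ∈ V, t ≤ v 0 := by
  classical
  unfold St
  rw [Finset.mem_filter]

theorem nonempty_of_isVertexSet {V : Finset (Fin 2 → ℤ)} (h : IsVertexSet V) : V.Nonempty := by
  rw [Finset.nonempty_iff_ne_empty]
  rintro rfl
  have := h.2
  simp at this

theorem St_zero (k : ℤ) : St k 0 = F k k := by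
  ext V
  rw [mem_St]
  constructor
  · exact fun h => h.1
  · intro h
    exact ⟨h, fun v hv => ((mem_F.1 h).1 v hv).1.1⟩

theorem St_top (k : ℤ) : St k (k + 1) = ∅ := by
  rw [Finset.eq_empty_iff_forall_notMem]
  intro V hV
  rw [mem_St] at hV
  obtain ⟨v, hv⟩ := nonempty_of_isVertexSet (mem_F.1 hV.1).2
  have h1 := hV.2 v hv
  have h2 := ((mem_F.1 hV.1).1 v hv).1.2
  omega

theorem St_anti (k : ℤ) {s t : ℤ} (h : s ≤ t) : St k t ⊆ St k s := by
  intro V hV
  rw [mem_St] at hV ⊢
  exact ⟨hV.1, fun v hv => h.trans (hV.2 v hv)⟩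

theorem card_St_one (k : ℤ) : (F (k - 1) k).card ≤ (St k 1).card := by
  classical
  apply Finset.card_le_card_of_injOn (fun V => V.map (addLeftEmbedding (![1, 0] : Fin 2 → ℤ)))
  · intro V hV
    rw [Finset.mem_coe, mem_F] at hV
    rw [Finset.mem_coe, mem_St, mem_F]
    refine ⟨⟨?_, isVertexSet_translate hV.2 _⟩, ?_⟩
    · intro w hw
      rw [Finset.mem_map] at hw
      obtain ⟨v, hv, rfl⟩ := hw
      have := hV.1 v hv
      simp
      omega
    · intro w hw
      rw [Finset.mem_map] at hw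
      obtain ⟨v, hv, rfl⟩ := hw
      have := hV.1 v hv
      simp
      omega
  · intro V _ W _ h
    exact Finset.map_injective _ h

/-- The number of polygons with leftmost coordinate exactly `t` is largest for `t = 0`. -/
theorem step_le (k t : ℤ) (ht : 0 ≤ t) :
    (St k t).card ≤ (St k (t + 1)).card + ((F k k).card - (F (k - 1) k).card) := by
  classical
  have hsub : (St k t \ St k (t + 1)).card ≤ (St k 0 \ St k 1).card := by
    apply Finset.card_le_card_of_injOn (fun V => V.map (addLeftEmbedding (![-t, 0] : Fin 2 → ℤ)))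
    · intro V hV
      rw [Finset.mem_coe, Finset.mem_sdiff, mem_St, mem_St] at hV
      obtain ⟨⟨hF, ht1⟩, hn⟩ := hV
      rw [Finset.mem_coe, Finset.mem_sdiff, St_zero, mem_St, mem_F]
      have hF' := mem_F.1 hF
      refine ⟨⟨?_, isVertexSet_translate hF'.2 _⟩, ?_⟩
      · intro w hw
        rw [Finset.mem_map] at hw
        obtain ⟨v, hv, rfl⟩ := hw
        have h1 := hF'.1 v hv
        have h2 := ht1 v hv
        simp
        omega
      · rintro ⟨-, h⟩
        apply hn
        refine ⟨hF, fun v hv => ?_⟩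
        have := h _ (Finset.mem_map_of_mem _ hv)
        simp at this
        omega
    · intro V _ W _ h
      exact Finset.map_injective _ h
  have h1 : (St k t \ St k (t + 1)).card = (St k t).card - (St k (t + 1)).card :=
    Finset.card_sdiff_of_subset (St_anti k (by omega))
  have h2 : (St k 0 \ St k 1).card = (St k 0).card - (St k 1).card :=
    Finset.card_sdiff_of_subset (St_anti k (by omega))
  have h3 := card_St_one k
  rw [St_zero] at h2
  rw [St_zero, h1, h2] at hsub
  omega

/-- `V` together with its translate by the second unit vector. -/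
def dbl (V : Finset (Fin 2 → ℤ)) : Finset (Fin 2 → ℤ) :=
  V ∪ V.map (addLeftEmbedding (![0, 1] : Fin 2 → ℤ))

theorem mem_dbl {V : Finset (Fin 2 → ℤ)} {x : Fin 2 → ℤ} :
    x ∈ dbl V ↔ x ∈ V ∨ ∃ v ∈ V, ![0, 1] + v = x := by
  unfold dbl
  rw [Finset.mem_union, Finset.mem_map]
  rfl

/-- Cancellation of the segment. -/
theorem hull_subset_of_dbl {V W : Finset (Fin 2 → ℤ)}
    (h : convexHull ℝ (toR '' (dbl V : Set (Fin 2 → ℤ)))
      = convexHull ℝ (toR '' (dbl W : Set (Fin 2 → ℤ)))) :
    convexHull ℝ (toR '' (V : Set (Fin 2 → ℤ))) ⊆ convexHull ℝ (toR '' (W : Set (Fin 2 → ℤ))) := by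
  apply convexHull_min _ (convex_convexHull ℝ _)
  rintro _ ⟨x, hx, rfl⟩
  by_contra hxW
  obtain ⟨l, hl⟩ := exists_exposing W _ (Set.Subset.refl _) hxW
  set e : Fin 2 → ℝ := toR (![0, 1] : Fin 2 → ℤ) with he
  have hadd : ∀ v : Fin 2 → ℤ, toR (![0, 1] + v) = e + toR v := by
    intro v
    funext i
    simp [he, toR]
  have hbound : ∀ z ∈ convexHull ℝ (toR '' (dbl W : Set (Fin 2 → ℤ))),
      l z < l (toR x) + max 0 (l e) := by
    intro z hz
    have hsub : convexHull ℝ (toR '' (dbl W : Set (Fin 2 → ℤ)))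
        ⊆ {z | l z < l (toR x) + max 0 (l e)} := by
      apply convexHull_min
      · rintro _ ⟨w, hw, rfl⟩
        rw [Finset.mem_coe, mem_dbl] at hw
        rcases hw with hw | ⟨w', hw', rfl⟩
        · have h1 := hl (toR w) (subset_convexHull ℝ _ ⟨w, hw, rfl⟩)
          have h2 : 0 ≤ max 0 (l e) := le_max_left _ _
          show l (toR w) < l (toR x) + max 0 (l e)
          linarith
        · have h1 := hl (toR w') (subset_convexHull ℝ _ ⟨w', hw', rfl⟩)
          have h2 : l e ≤ max 0 (l e) := le_max_right _ _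
          show l (toR (![0, 1] + w')) < l (toR x) + max 0 (l e)
          rw [hadd, map_add]
          linarith
      · exact convex_halfSpace_lt (l : (Fin 2 → ℝ) →ₗ[ℝ] ℝ).isLinear _
    exact hsub hz
  rcases le_total 0 (l e) with h0 | h0
  · have hmem : toR (![0, 1] + x) ∈ convexHull ℝ (toR '' (dbl W : Set (Fin 2 → ℤ))) := by
      rw [← h]
      apply subset_convexHull
      exact ⟨_, by rw [Finset.mem_coe, mem_dbl]; exact Or.inr ⟨x, hx, rfl⟩, rfl⟩
    have := hbound _ hmem
    rw [hadd, map_add, max_eq_right h0] at this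
    linarith
  · have hmem : toR x ∈ convexHull ℝ (toR '' (dbl W : Set (Fin 2 → ℤ))) := by
      rw [← h]
      apply subset_convexHull
      exact ⟨_, by rw [Finset.mem_coe, mem_dbl]; exact Or.inl hx, rfl⟩
    have := hbound _ hmem
    rw [max_eq_left h0] at this
    linarith

/-- `V` has a unique leftmost point. -/
def UniqueLeft (V : Finset (Fin 2 → ℤ)) : Prop := ∃ v ∈ V, ∀ w ∈ V, w ≠ v → v 0 < w 0

/-- A convexly independent representative of `dbl V` is never uniquely leftmost. -/
theorem not_uniqueLeft_of_dbl {V W : Finset (Fin 2 → ℤ)} (hVne : V.Nonempty) (hWV : W ⊆ dbl V)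
    (h : convexHull ℝ (toR '' (W : Set (Fin 2 → ℤ)))
      = convexHull ℝ (toR '' (dbl V : Set (Fin 2 → ℤ)))) : ¬ UniqueLeft W := by
  classical
  rintro ⟨v, hv, hlt⟩
  -- leftmost point of `V`
  obtain ⟨p, hp, hpmin⟩ := V.exists_min_image (fun v => v 0) hVne
  have hmin' : ∀ w ∈ dbl V, p 0 ≤ w 0 := by
    intro w hw
    rw [mem_dbl] at hw
    rcases hw with hw | ⟨w', hw', rfl⟩
    · exact hpmin w hw
    · simpa using hpmin w' hw'
  have hpv : p 0 ≤ v 0 := hmin' v (hWV hv)
  -- every hull point with first coordinate at most `v 0` is `v`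
  have key : ∀ z ∈ convexHull ℝ (toR '' (W : Set (Fin 2 → ℤ))), z 0 ≤ (v 0 : ℝ) → z = toR v := by
    intro z hz hz0
    have hins : (toR '' (W : Set (Fin 2 → ℤ)))
        = insert (toR v) (toR '' ((W : Set (Fin 2 → ℤ)) \ {v})) := by
      rw [← Set.image_insert_eq, Set.insert_sdiff_singleton, Set.insert_eq_of_mem]
      exact hv
    have hgt : ∀ y ∈ convexHull ℝ (toR '' ((W : Set (Fin 2 → ℤ)) \ {v})), (v 0 : ℝ) < y 0 := by
      intro y hy
      have hsub : convexHull ℝ (toR '' ((W : Set (Fin 2 → ℤ)) \ {v})) ⊆ {y | (v 0 : ℝ) < y 0} := by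
        apply convexHull_min
        · rintro _ ⟨w, hw, rfl⟩
          have := hlt w hw.1 hw.2
          show (v 0 : ℝ) < ((w 0 : ℤ) : ℝ)
          exact_mod_cast this
        · exact convex_halfSpace_gt (LinearMap.proj (R := ℝ) (φ := fun _ : Fin 2 => ℝ) 0).isLinear _
      exact hsub hy
    by_cases hne : (toR '' ((W : Set (Fin 2 → ℤ)) \ {v})).Nonempty
    · rw [hins, convexHull_insert hne, mem_convexJoin] at hz
      obtain ⟨a, ha, b, hb, hz⟩ := hz
      rw [Set.mem_singleton_iff] at ha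
      subst ha
      obtain ⟨α, β, hα, hβ, hαβ, rfl⟩ := hz
      have hb' := hgt b hb
      have hz1 : α * (v 0 : ℝ) + β * b 0 ≤ v 0 := by
        simpa [toR] using hz0
      rcases hβ.lt_or_eq with hβ | hβ
      · exfalso
        have hα' : α = 1 - β := by linarith
        subst hα'
        have := mul_lt_mul_of_pos_left hb' hβ
        nlinarith
      · have : α = 1 := by linarith
        rw [this, ← hβ]
        simp
    · rw [Set.not_nonempty_iff_eq_empty] at hne
      rw [hins, hne] at hz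
      simpa using hz
  have hp1 : toR p ∈ convexHull ℝ (toR '' (W : Set (Fin 2 → ℤ))) := by
    rw [h]
    exact subset_convexHull ℝ _ ⟨p, by rw [Finset.mem_coe, mem_dbl]; exact Or.inl hp, rfl⟩
  have hp2 : toR (![0, 1] + p) ∈ convexHull ℝ (toR '' (W : Set (Fin 2 → ℤ))) := by
    rw [h]
    exact subset_convexHull ℝ _
      ⟨_, by rw [Finset.mem_coe, mem_dbl]; exact Or.inr ⟨p, hp, rfl⟩, rfl⟩
  have e1 : toR p = toR v := key _ hp1 (by show ((p 0 : ℤ) : ℝ) ≤ _; exact_mod_cast hpv)
  have e2 : toR (![0, 1] + p) = toR v := key _ hp2 (by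
    have h0 : (![0, 1] + p : Fin 2 → ℤ) 0 = p 0 := by simp
    have h1 : (toR (![0, 1] + p : Fin 2 → ℤ)) 0 = ((p 0 : ℤ) : ℝ) := by
      unfold toR
      rw [h0]
    rw [h1]
    exact_mod_cast hpv)
  have e3 := toR_injective (e1.trans e2.symm)
  have e4 := congrFun e3 1
  simp at e4

open Classical in
/-- Polygons with a unique leftmost vertex. -/
noncomputable def U (k : ℤ) : Finset (Finset (Fin 2 → ℤ)) := (F k k).filter UniqueLeft

/-- The Minkowski sum with a vertical segment gives few polygons with a unique leftmost point. -/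
theorem card_U_add (k : ℤ) : (U k).card + (F k (k - 1)).card ≤ (F k k).card := by
  classical
  have hrep : ∀ V : Finset (Fin 2 → ℤ), ∃ W ⊆ dbl V, Indep W ∧
      convexHull ℝ (toR '' (W : Set (Fin 2 → ℤ)))
        = convexHull ℝ (toR '' (dbl V : Set (Fin 2 → ℤ))) :=
    fun V => exists_indep_subset _ (dbl V) rfl
  choose r hr1 hr2 hr3 using hrep
  have hinj : (F k (k - 1)).card ≤ ((F k k).filter (fun V => ¬ UniqueLeft V)).card := by
    apply Finset.card_le_card_of_injOn r
    · intro V hV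
      rw [Finset.mem_coe, mem_F] at hV
      rw [Finset.mem_coe, Finset.mem_filter, mem_F]
      refine ⟨⟨?_, hr2 V, ?_⟩, ?_⟩
      · intro w hw
        have := hr1 V hw
        rw [mem_dbl] at this
        rcases this with h | ⟨v, hv, rfl⟩
        · have := hV.1 w h
          omega
        · have := hV.1 v hv
          simp
          omega
      · rw [affineSpan_eq_of_hull (hr3 V), eq_top_iff, ← hV.2.2]
        apply affineSpan_mono
        apply Set.image_mono
        intro v hv
        rw [Finset.mem_coe, mem_dbl]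
        exact Or.inl hv
      · exact not_uniqueLeft_of_dbl (nonempty_of_isVertexSet hV.2) (hr1 V) (hr3 V)
    · intro V hV W hW h
      rw [Finset.mem_coe, mem_F] at hV hW
      have h1 : convexHull ℝ (toR '' (dbl V : Set (Fin 2 → ℤ)))
          = convexHull ℝ (toR '' (dbl W : Set (Fin 2 → ℤ))) := by
        have h' : r V = r W := h
        rw [← hr3 V, ← hr3 W, h']
      exact eq_of_hull_eq hV.2.1 hW.2.1
        (Set.Subset.antisymm (hull_subset_of_dbl h1) (hull_subset_of_dbl h1.symm))
  have := Finset.card_filter_add_card_filter_not (s := F k k) UniqueLeft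
  unfold U
  omega

end Pool.Agent.Q179.LPM
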