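import Pool.Agent.Q179.LPM.Phi

/-!
# Large families of lattice polytopes with and without the vertex `0`
-/

open Set Filter

namespace Pool.Agent.Q179.LPM

/-- Polynomials are eventually smaller than `2 ^ n`. -/
theorem eventually_pow_le (p : ℕ) : ∀ᶠ n : ℕ in atTop, 16 * (n + 2) ^ p ≤ 2 ^ n := by
  have h := tendsto_pow_const_div_const_pow_of_one_lt p (r := (2 : ℝ)) (by norm_num)
  have h2 := h.comp (tendsto_add_atTop_nat 2)
  have h3 := h2.eventually (gt_mem_nhds (show (0 : ℝ) < 1 / 64 by norm_num))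
  filter_upwards [h3] with n hn
  simp only [Function.comp] at hn
  rw [div_lt_iff₀ (by positivity)] at hn
  have h4 : (16 : ℝ) * ((n : ℝ) + 2) ^ p ≤ 2 ^ n := by
    have e : (2 : ℝ) ^ (n + 2) = 4 * 2 ^ n := by rw [pow_add]; ring
    rw [e] at hn
    push_cast at hn
    linarith
  exact_mod_cast h4

/-! ### Fixed dimension -/

/-- The point `(i, i^2, 0, …, 0)`. -/
def par (e : ℕ) (i : ℕ) : Fin (e + 2) → ℤ := fun j => if j = 0 then i else if j = 1 then i ^ 2 else 0

/-- Points on the parabola together with the remaining unit vectors. -/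
def fam (e : ℕ) (s : Finset ℕ) : Finset (Fin (e + 2) → ℤ) :=
  s.image (par e) ∪ (Finset.univ.filter (fun j : Fin (e + 2) => j ≠ 0 ∧ j ≠ 1)).image
    (fun j => Pi.single j 1)

theorem mem_fam {e : ℕ} {s : Finset ℕ} {x : Fin (e + 2) → ℤ} :
    x ∈ fam e s ↔ (∃ i ∈ s, par e i = x) ∨ ∃ j : Fin (e + 2), (j ≠ 0 ∧ j ≠ 1) ∧
      Pi.single j 1 = x := by
  unfold fam
  rw [Finset.mem_union, Finset.mem_image, Finset.mem_image]
  simp

theorem sum_par (e i : ℕ) : ∑ j, (toR (par e i)) j = (i : ℝ) + (i : ℝ) ^ 2 := by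
  rw [Fin.sum_univ_succ, Fin.sum_univ_succ]
  have : ∀ j : Fin e, (toR (par e i)) (Fin.succ (Fin.succ j)) = 0 := by
    intro j
    unfold toR par
    have h0 : (Fin.succ (Fin.succ j) : Fin (e + 2)) ≠ 0 := Fin.succ_ne_zero _
    have h1 : (Fin.succ (Fin.succ j) : Fin (e + 2)) ≠ 1 := by
      intro h
      have := Fin.val_eq_of_eq h
      simp at this
    rw [if_neg h0, if_neg h1]
    simp
  rw [Finset.sum_eq_zero (fun j _ => this j)]
  unfold toR par
  simp

theorem sum_single {d : ℕ} (j : Fin d) : ∑ l, (toR (Pi.single j 1 : Fin d → ℤ)) l = (1 : ℝ) := by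
  rw [Finset.sum_eq_single j]
  · simp [toR]
  · intro l _ hl
    simp [toR, hl]
  · simp

theorem indep_fam (e : ℕ) (s : Finset ℕ) : Indep (fam e s) := by
  apply indep_of_exposed
  intro x hx
  rw [mem_fam] at hx
  rcases hx with ⟨i, hi, rfl⟩ | ⟨j, hj, rfl⟩
  · refine ⟨(2 * (i : ℝ) + 1) • (LinearMap.proj (R := ℝ) (φ := fun _ : Fin (e + 2) => ℝ) 0)
      - ∑ l, LinearMap.proj (R := ℝ) (φ := fun _ : Fin (e + 2) => ℝ) l, ?_⟩
    intro y hy hne
    rw [mem_fam] at hy
    have hval : ∀ z : Fin (e + 2) → ℝ,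
        ((2 * (i : ℝ) + 1) • (LinearMap.proj (R := ℝ) (φ := fun _ : Fin (e + 2) => ℝ) 0)
      - ∑ l, LinearMap.proj (R := ℝ) (φ := fun _ : Fin (e + 2) => ℝ) l) z
        = (2 * (i : ℝ) + 1) * z 0 - ∑ l, z l := by
      intro z
      simp [LinearMap.sub_apply, LinearMap.sum_apply]
    rw [hval, hval]
    have hx0 : (toR (par e i)) 0 = (i : ℝ) := by simp [toR, par]
    rw [sum_par, hx0]
    rcases hy with ⟨m, hm, rfl⟩ | ⟨j, hj, rfl⟩
    · have hm0 : (toR (par e m)) 0 = (m : ℝ) := by simp [toR, par]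
      rw [sum_par, hm0]
      have hmi : (m : ℝ) ≠ i := by
        intro h
        apply hne
        rw [Nat.cast_injective h]
      have : 0 < ((m : ℝ) - i) ^ 2 := by
        have : (m : ℝ) - i ≠ 0 := sub_ne_zero.2 hmi
        positivity
      nlinarith
    · rw [sum_single]
      have : (toR (Pi.single j 1 : Fin (e + 2) → ℤ)) 0 = 0 := by
        simp [toR, hj.1.symm]
      rw [this]
      nlinarith [sq_nonneg (i : ℝ)]
  · refine ⟨LinearMap.proj (R := ℝ) (φ := fun _ : Fin (e + 2) => ℝ) j, ?_⟩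
    intro y hy hne
    rw [mem_fam] at hy
    have hj1 : (toR (Pi.single j 1 : Fin (e + 2) → ℤ)) j = 1 := by simp [toR]
    show (toR y) j < (toR (Pi.single j 1 : Fin (e + 2) → ℤ)) j
    rw [hj1]
    rcases hy with ⟨m, hm, rfl⟩ | ⟨l, hl, rfl⟩
    · have : (toR (par e m)) j = 0 := by simp [toR, par, hj.1, hj.2]
      rw [this]
      norm_num
    · have hlj : j ≠ l := by
        rintro rfl
        exact hne rfl
      have : (toR (Pi.single l 1 : Fin (e + 2) → ℤ)) j = 0 := by
        simp [toR, hlj]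
      rw [this]
      norm_num

theorem span_fam (e a : ℕ) (s : Finset ℕ) (h0 : a ∈ s) (h1 : a + 1 ∈ s) (h2 : a + 2 ∈ s) :
    affineSpan ℝ (toR '' (fam e s : Set (Fin (e + 2) → ℤ))) = ⊤ := by
  have hp : ∀ i, i ∈ s → par e i ∈ fam e s := fun i hi => mem_fam.2 (Or.inl ⟨i, hi, rfl⟩)
  have d1 := sub_mem_direction (hp _ h1) (hp _ h0)
  have d2 := sub_mem_direction (hp _ h2) (hp _ h0)
  set D := (affineSpan ℝ (toR '' (fam e s : Set (Fin (e + 2) → ℤ)))).direction with hD
  have hval : ∀ i j, (toR (par e i)) j = if j = 0 then (i : ℝ) else if j = 1 then (i : ℝ) ^ 2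
      else 0 := by
    intro i j
    unfold toR par
    split_ifs <;> simp
  have h01 : (1 : Fin (e + 2)) ≠ 0 := by
    intro h
    have := Fin.val_eq_of_eq h
    simp at this
  have E1 : (Pi.single 1 1 : Fin (e + 2) → ℝ) ∈ D := by
    have := D.sub_mem (D.smul_mem (1 / 2 : ℝ) d2) d1
    convert this using 1
    funext j
    simp only [Pi.sub_apply, Pi.smul_apply, smul_eq_mul, hval, Pi.single_apply]
    by_cases hj0 : j = 0
    · subst hj0
      rw [if_neg h01.symm]
      simp
    · by_cases hj1 : j = 1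
      · subst hj1
        simp [h01]
        ring
      · simp [hj0, hj1]
  have E0 : (Pi.single 0 1 : Fin (e + 2) → ℝ) ∈ D := by
    have := D.sub_mem d1 (D.smul_mem (2 * (a : ℝ) + 1) E1)
    convert this using 1
    funext j
    simp only [Pi.sub_apply, Pi.smul_apply, smul_eq_mul, hval, Pi.single_apply]
    by_cases hj0 : j = 0
    · subst hj0
      simp [h01.symm]
    · by_cases hj1 : j = 1
      · subst hj1
        simp [h01]
        ring
      · simp [hj0, hj1]
  have hpa : toR (par e a) ∈ D := by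
    have := D.add_mem (D.smul_mem (a : ℝ) E0) (D.smul_mem ((a : ℝ) ^ 2) E1)
    convert this using 1
    funext j
    simp only [Pi.add_apply, Pi.smul_apply, smul_eq_mul, hval, Pi.single_apply]
    by_cases hj0 : j = 0
    · subst hj0
      simp [h01.symm]
    · by_cases hj1 : j = 1
      · subst hj1
        simp [h01]
      · simp [hj0, hj1]
  apply span_top_of_units ⟨_, hp _ h0⟩
  intro i
  by_cases hi0 : i = 0
  · rw [hi0]
    exact E0
  · by_cases hi1 : i = 1
    · rw [hi1]
      exact E1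
    · have hmem : (Pi.single i 1 : Fin (e + 2) → ℤ) ∈ fam e s :=
        mem_fam.2 (Or.inr ⟨i, ⟨hi0, hi1⟩, rfl⟩)
      have d3 := sub_mem_direction hmem (hp _ h0)
      have := D.add_mem d3 hpa
      convert this using 1
      funext j
      simp only [Pi.add_apply, Pi.sub_apply, toR, Pi.single_apply]
      split_ifs <;> simp

theorem par_injective (e : ℕ) : Function.Injective (par e) := by
  intro a b h
  have := congrFun h 0
  simpa [par] using this

theorem box_fam {e k : ℕ} (hk : 1 ≤ k) (s : Finset ℕ) (hs : ∀ i ∈ s, i ^ 2 ≤ k) :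
    ∀ v ∈ fam e s, ∀ i, 0 ≤ v i ∧ v i ≤ k := by
  intro v hv i
  rw [mem_fam] at hv
  rcases hv with ⟨m, hm, rfl⟩ | ⟨j, hj, rfl⟩
  · have h1 := hs m hm
    have h2 : m ≤ m ^ 2 := Nat.le_self_pow (by norm_num) m
    have h3 : (m : ℤ) ^ 2 ≤ k := by exact_mod_cast h1
    have h4 : (m : ℤ) ≤ k := by exact_mod_cast h2.trans h1
    unfold par
    split_ifs
    · exact ⟨by positivity, h4⟩
    · exact ⟨by positivity, h3⟩
    · exact ⟨le_rfl, by positivity⟩
  · rw [Pi.single_apply]
    split_ifs
    · exact ⟨by norm_num, by exact_mod_cast hk⟩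
    · exact ⟨le_rfl, by positivity⟩

theorem card_diff_fam (e n : ℕ) (s t : Finset ℕ) (h : n ≤ (s \ t).card) :
    n ≤ (fam e s \ fam e t).card := by
  refine h.trans ?_
  apply Finset.card_le_card_of_injOn (par e)
  · intro i hi
    rw [Finset.mem_coe, Finset.mem_sdiff] at hi
    rw [Finset.mem_coe, Finset.mem_sdiff, mem_fam, mem_fam]
    refine ⟨Or.inl ⟨i, hi.1, rfl⟩, ?_⟩
    rintro (⟨m, hm, hmi⟩ | ⟨j, hj, hji⟩)
    · rw [par_injective e hmi] at hm
      exact hi.2 hm
    · have := congrFun hji j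
      simp [par, hj.1, hj.2] at this
  · intro a _ b _ hab
    exact par_injective e hab

theorem fixed_dim_families (e k : ℕ) (hk : 9 ≤ k) :
    2 ^ (Nat.sqrt k - 3) ≤ (withZero (e + 2) k).card ∧
      2 ^ (Nat.sqrt k - 3) ≤ (withoutZero (e + 2) k).card := by
  have hsq : ∀ i, i ≤ Nat.sqrt k → i ^ 2 ≤ k := by
    intro i hi
    have h1 : i ^ 2 ≤ (Nat.sqrt k) ^ 2 := Nat.pow_le_pow_left hi 2
    have h2 : (Nat.sqrt k) ^ 2 ≤ k := Nat.sqrt_le' k
    omega
  have hs3 : 3 ≤ Nat.sqrt k := Nat.le_sqrt'.2 (by omega)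
  constructor
  · have hsub : Finset.range 3 ⊆ Finset.range (Nat.sqrt k + 1) :=
      Finset.range_subset_range.2 (by omega)
    have hc := card_diff_fam e (Nat.sqrt k - 3) (Finset.range (Nat.sqrt k + 1)) (Finset.range 3)
      (by
        rw [Finset.card_sdiff_of_subset hsub, Finset.card_range, Finset.card_range]
        omega)
    refine (Nat.pow_le_pow_right (by norm_num) hc).trans ?_
    apply card_family (fam e (Finset.range (Nat.sqrt k + 1))) (fam e (Finset.range 3))
    · intro x hx
      rw [mem_fam] at hx ⊢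
      rcases hx with ⟨i, hi, h⟩ | h
      · exact Or.inl ⟨i, hsub hi, h⟩
      · exact Or.inr h
    · exact indep_fam _ _
    · exact box_fam (by omega) _ (fun i hi => hsq i (by rw [Finset.mem_range] at hi; omega))
    · exact span_fam e 0 _ (by simp) (by simp) (by simp)
    · intro V hBV _
      rw [mem_withZero]
      apply hBV
      rw [mem_fam]
      left
      refine ⟨0, by simp, ?_⟩
      funext j
      unfold par
      split_ifs <;> simp
  · have hsub : Finset.Icc 1 3 ⊆ Finset.Icc 1 (Nat.sqrt k) :=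
      Finset.Icc_subset_Icc le_rfl hs3
    have hc := card_diff_fam e (Nat.sqrt k - 3) (Finset.Icc 1 (Nat.sqrt k)) (Finset.Icc 1 3)
      (by
        rw [Finset.card_sdiff_of_subset hsub, Nat.card_Icc, Nat.card_Icc]
        omega)
    refine (Nat.pow_le_pow_right (by norm_num) hc).trans ?_
    apply card_family (fam e (Finset.Icc 1 (Nat.sqrt k))) (fam e (Finset.Icc 1 3))
    · intro x hx
      rw [mem_fam] at hx ⊢
      rcases hx with ⟨i, hi, h⟩ | h
      · exact Or.inl ⟨i, hsub hi, h⟩
      · exact Or.inr h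
    · exact indep_fam _ _
    · exact box_fam (by omega) _ (fun i hi => hsq i (by rw [Finset.mem_Icc] at hi; omega))
    · exact span_fam e 1 _ (by simp) (by simp) (by simp)
    · intro V _ hVY
      rw [mem_withoutZero]
      intro h0
      have := hVY h0
      rw [mem_fam] at this
      rcases this with ⟨i, hi, h⟩ | ⟨j, hj, h⟩
      · have h2 := congrFun h 0
        rw [Finset.mem_Icc] at hi
        simp [par] at h2
        omega
      · have h2 := congrFun h j
        simp at h2

/-! ### Fixed size -/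

/-- The vertices of the unit cube. -/
noncomputable def cube (d : ℕ) : Finset (Fin d → ℤ) := Finset.Icc 0 1

theorem mem_cube {d : ℕ} {v : Fin d → ℤ} : v ∈ cube d ↔ ∀ i, v i = 0 ∨ v i = 1 := by
  unfold cube
  rw [Finset.mem_Icc]
  constructor
  · rintro ⟨h1, h2⟩ i
    have a := h1 i
    have b := h2 i
    simp at a b
    omega
  · intro h
    refine ⟨fun i => ?_, fun i => ?_⟩
    · rcases h i with h | h <;> simp [h]
    · rcases h i with h | h <;> simp [h]

theorem card_cube (d : ℕ) : (cube d).card = 2 ^ d := by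
  unfold cube
  rw [Pi.card_Icc]
  simp

theorem indep_cube (d : ℕ) : Indep (cube d) := by
  apply indep_of_exposed
  intro x hx
  rw [mem_cube] at hx
  refine ⟨∑ l, (2 * (x l : ℝ) - 1) • LinearMap.proj (R := ℝ) (φ := fun _ : Fin d => ℝ) l, ?_⟩
  intro y hy hne
  rw [mem_cube] at hy
  simp only [LinearMap.sum_apply, LinearMap.smul_apply, LinearMap.proj_apply, smul_eq_mul]
  have hterm : ∀ l, (2 * (x l : ℝ) - 1) * (toR y) l ≤ (2 * (x l : ℝ) - 1) * (toR x) l := by
    intro l
    unfold toR
    rcases hx l with h | h <;> rcases hy l with h' | h' <;> rw [h, h'] <;> norm_num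
  apply Finset.sum_lt_sum (fun l _ => hterm l)
  have : ∃ l, y l ≠ x l := by
    by_contra hn
    push Not at hn
    exact hne (funext hn)
  obtain ⟨l, hl⟩ := this
  refine ⟨l, Finset.mem_univ _, ?_⟩
  unfold toR
  rcases hx l with h | h <;> rcases hy l with h' | h'
  · rw [h, h'] at hl
    exact absurd rfl hl
  · rw [h, h']
    norm_num
  · rw [h, h']
    norm_num
  · rw [h, h'] at hl
    exact absurd rfl hl

/-- The unit vectors. -/
def units (d : ℕ) : Finset (Fin d → ℤ) := Finset.univ.image (fun i : Fin d => Pi.single i 1)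

theorem mem_units {d : ℕ} {v : Fin d → ℤ} : v ∈ units d ↔ ∃ i, Pi.single i 1 = v := by
  unfold units
  simp

theorem units_subset_cube (d : ℕ) : units d ⊆ cube d := by
  intro v hv
  rw [mem_units] at hv
  obtain ⟨i, rfl⟩ := hv
  rw [mem_cube]
  intro j
  rw [Pi.single_apply]
  split_ifs <;> simp

theorem toR_single {d : ℕ} (i : Fin d) :
    toR (Pi.single i 1 : Fin d → ℤ) = (Pi.single i 1 : Fin d → ℝ) := by
  funext j
  simp only [toR, Pi.single_apply]
  split_ifs <;> simp

theorem card_units_le (d : ℕ) (x : Fin d → ℤ) : (insert x (units d)).card ≤ d + 1 := by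
  refine (Finset.card_insert_le _ _).trans ?_
  have : (units d).card ≤ d := by
    unfold units
    exact Finset.card_image_le.trans (by simp)
  omega

theorem fixed_size_families (d k : ℕ) (hd : 2 ≤ d) (hk : 1 ≤ k) :
    2 ^ (2 ^ d - d - 2) ≤ (withZero d k).card ∧ 2 ^ (2 ^ d - d - 2) ≤ (withoutZero d k).card := by
  classical
  have hbox : ∀ v ∈ cube d, ∀ i, 0 ≤ v i ∧ v i ≤ k := by
    intro v hv i
    rw [mem_cube] at hv
    have hk' : (1 : ℤ) ≤ k := by exact_mod_cast hk
    rcases hv i with h | h <;> rw [h] <;> constructor <;> omega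
  have h0cube : (0 : Fin d → ℤ) ∈ cube d := mem_cube.2 (fun i => Or.inl rfl)
  have h1cube : (1 : Fin d → ℤ) ∈ cube d := mem_cube.2 (fun i => Or.inr rfl)
  constructor
  · have hsub : insert 0 (units d) ⊆ cube d := by
      intro x hx
      rw [Finset.mem_insert] at hx
      rcases hx with rfl | hx
      · exact h0cube
      · exact units_subset_cube d hx
    have hc : 2 ^ d - d - 2 ≤ (cube d \ insert 0 (units d)).card := by
      rw [Finset.card_sdiff_of_subset hsub, card_cube]
      have := card_units_le d 0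
      omega
    refine (Nat.pow_le_pow_right (by norm_num) hc).trans ?_
    apply card_family (cube d) (insert 0 (units d)) hsub (indep_cube d) hbox
    · apply span_top_of_units ⟨0, Finset.mem_insert_self _ _⟩
      intro i
      have := sub_mem_direction (V := insert 0 (units d)) (x := Pi.single i 1) (y := 0)
        (Finset.mem_insert_of_mem (mem_units.2 ⟨i, rfl⟩)) (Finset.mem_insert_self _ _)
      convert this using 1
      rw [toR_single]
      funext j
      simp [toR]
    · intro V hBV _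
      rw [mem_withZero]
      exact hBV (Finset.mem_insert_self _ _)
  · have h10 : (1 : Fin d → ℤ) ≠ 0 := by
      intro h
      have := congrFun h ⟨0, by omega⟩
      simp at this
    have hsub : insert 1 (units d) ⊆ (cube d).erase 0 := by
      intro x hx
      rw [Finset.mem_insert] at hx
      rw [Finset.mem_erase]
      rcases hx with rfl | hx
      · exact ⟨h10, h1cube⟩
      · refine ⟨?_, units_subset_cube d hx⟩
        rintro rfl
        rw [mem_units] at hx
        obtain ⟨i, hi⟩ := hx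
        have := congrFun hi i
        simp at this
    have hc : 2 ^ d - d - 2 ≤ ((cube d).erase 0 \ insert 1 (units d)).card := by
      rw [Finset.card_sdiff_of_subset hsub, Finset.card_erase_of_mem h0cube, card_cube]
      have := card_units_le d 1
      omega
    refine (Nat.pow_le_pow_right (by norm_num) hc).trans ?_
    apply card_family ((cube d).erase 0) (insert 1 (units d)) hsub
      ((indep_cube d).mono (Finset.erase_subset _ _))
      (fun v hv => hbox v (Finset.mem_of_mem_erase hv))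
    · set D := (affineSpan ℝ (toR '' ((insert 1 (units d) : Finset (Fin d → ℤ)) :
        Set (Fin d → ℤ)))).direction with hD
      have hdiff : ∀ i j : Fin d, (Pi.single i 1 : Fin d → ℝ) - Pi.single j 1 ∈ D := by
        intro i j
        have := sub_mem_direction (V := insert 1 (units d)) (x := Pi.single i 1)
          (y := Pi.single j 1) (Finset.mem_insert_of_mem (mem_units.2 ⟨i, rfl⟩))
          (Finset.mem_insert_of_mem (mem_units.2 ⟨j, rfl⟩))
        rw [toR_single, toR_single] at this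
        exact this
      apply span_top_of_units ⟨1, Finset.mem_insert_self _ _⟩
      intro i
      have hone := sub_mem_direction (V := insert 1 (units d)) (x := 1)
          (y := Pi.single i 1) (Finset.mem_insert_self _ _)
          (Finset.mem_insert_of_mem (mem_units.2 ⟨i, rfl⟩))
      rw [toR_single] at hone
      have hsum : ∑ j, ((Pi.single j 1 : Fin d → ℝ) - Pi.single i 1) ∈ D :=
        D.sum_mem (fun j _ => hdiff j i)
      have h3 := D.sub_mem hone hsum
      have h4 : (toR 1 - (Pi.single i 1 : Fin d → ℝ))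
          - ∑ j, ((Pi.single j 1 : Fin d → ℝ) - Pi.single i 1)
          = ((d : ℝ) - 1) • (Pi.single i 1 : Fin d → ℝ) := by
        funext l
        simp only [Pi.sub_apply, Finset.sum_sub_distrib, Finset.sum_apply, Pi.smul_apply,
          smul_eq_mul, Finset.sum_const, Finset.card_univ, Fintype.card_fin, nsmul_eq_mul, toR,
          Pi.one_apply]
        by_cases hl : l = i
        · subst hl
          simp [Pi.single_apply]
        · simp [Pi.single_apply, hl]
      rw [h4] at h3
      have hd1 : (d : ℝ) - 1 ≠ 0 := by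
        have : (2 : ℝ) ≤ d := by exact_mod_cast hd
        linarith
      have := D.smul_mem ((d : ℝ) - 1)⁻¹ h3
      rw [smul_smul, inv_mul_cancel₀ hd1, one_smul] at this
      exact this
    · intro V _ hVY
      rw [mem_withoutZero]
      intro h0
      exact absurd (hVY h0) (Finset.notMem_erase _ _)

/-! ### Conclusions -/

theorem conductance_fixed_dim (d : ℕ) (hd : 2 ≤ d) (M : ℕ) (hM : 1 ≤ M) :
    ∀ᶠ k : ℕ in atTop, SparseVolCut (Lam d k) (2 / M) := by
  obtain ⟨e, rfl⟩ : ∃ e, d = e + 2 := ⟨d - 2, by omega⟩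
  have h1 := eventually_pow_le (2 * (e + 2) * (M + (e + 2)))
  have hsqrt : Tendsto Nat.sqrt atTop atTop := by
    apply tendsto_atTop_atTop.2
    intro b
    refine ⟨b * b, fun a ha => ?_⟩
    exact Nat.le_sqrt.2 ha
  filter_upwards [hsqrt.eventually h1, eventually_ge_atTop 9] with k hk hk9
  set n := Nat.sqrt k with hn
  have hs3 : 3 ≤ n := Nat.le_sqrt'.2 (by omega)
  have hk1 : k + 1 ≤ (n + 1) ^ 2 := Nat.lt_succ_sqrt' k
  have hq : 2 * ((k + 1) ^ (e + 2) + 1) ^ (M + (e + 2)) ≤ 2 ^ (n - 3) := by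
    have a1 : (k + 1) ^ (e + 2) + 1 ≤ (n + 2) ^ (2 * (e + 2)) := by
      calc (k + 1) ^ (e + 2) + 1 ≤ ((n + 1) ^ 2) ^ (e + 2) + 1 := by gcongr
        _ = (n + 1) ^ (2 * (e + 2)) + 1 := by rw [← pow_mul]
        _ ≤ (n + 2) ^ (2 * (e + 2)) := by
            have := Nat.pow_lt_pow_left (show n + 1 < n + 2 by omega)
              (show 2 * (e + 2) ≠ 0 by omega)
            omega
    have a2 : ((k + 1) ^ (e + 2) + 1) ^ (M + (e + 2))
        ≤ (n + 2) ^ (2 * (e + 2) * (M + (e + 2))) := by
      calc ((k + 1) ^ (e + 2) + 1) ^ (M + (e + 2))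
          ≤ ((n + 2) ^ (2 * (e + 2))) ^ (M + (e + 2)) := by gcongr
        _ = _ := by rw [← pow_mul]
    have a3 : 2 ^ n = 8 * 2 ^ (n - 3) := by
      have : n = (n - 3) + 3 := by omega
      conv_lhs => rw [this, pow_add]
      ring
    omega
  have hf := fixed_dim_families e k hk9
  exact sparseVolCut_of_families hM (hq.trans hf.1) (hq.trans hf.2)

theorem conductance_fixed_size (k : ℕ) (hk : 1 ≤ k) (M : ℕ) (hM : 1 ≤ M) :
    ∀ᶠ d : ℕ in atTop, SparseVolCut (Lam d k) (2 / M) := by
  filter_upwards [eventually_pow_le 3, eventually_ge_atTop ((k + 2) * (M + 1) + 2)] with d hd hd2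
  have hd3 : 2 ≤ d := by omega
  have hq : 2 * ((k + 1) ^ d + 1) ^ (M + d) ≤ 2 ^ (2 ^ d - d - 2) := by
    have a1 : (k + 1) ^ d + 1 ≤ (k + 2) ^ d := by
      have := Nat.pow_lt_pow_left (show k + 1 < k + 2 by omega) (show d ≠ 0 by omega)
      omega
    have a2 : k + 2 ≤ 2 ^ (k + 2) := (Nat.lt_two_pow_self).le
    have a3 : ((k + 1) ^ d + 1) ^ (M + d) ≤ 2 ^ ((k + 2) * d * (M + d)) := by
      calc ((k + 1) ^ d + 1) ^ (M + d) ≤ ((k + 2) ^ d) ^ (M + d) := by gcongr
        _ ≤ ((2 ^ (k + 2)) ^ d) ^ (M + d) := by gcongr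
        _ = _ := by rw [← pow_mul, ← pow_mul, mul_assoc]
    have a4 : (k + 2) * d * (M + d) + 1 ≤ 2 ^ d - d - 2 := by
      have b1 : M + d ≤ (M + 1) * d := by nlinarith
      have b2 : (k + 2) * d * (M + d) ≤ ((k + 2) * (M + 1)) * d ^ 2 := by
        calc (k + 2) * d * (M + d) ≤ (k + 2) * d * ((M + 1) * d) := by gcongr
          _ = _ := by ring
      have b3 : ((k + 2) * (M + 1)) * d ^ 2 ≤ d * d ^ 2 := by
        gcongr
        omega
      have b4 : d * d ^ 2 + d + 3 ≤ 16 * (d + 2) ^ 3 := by nlinarith [Nat.zero_le (d ^ 3)]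
      omega
    calc 2 * ((k + 1) ^ d + 1) ^ (M + d) ≤ 2 * 2 ^ ((k + 2) * d * (M + d)) := by gcongr
      _ = 2 ^ ((k + 2) * d * (M + d) + 1) := by rw [pow_succ]; ring
      _ ≤ _ := Nat.pow_le_pow_right (by norm_num) a4
  have hf := fixed_size_families d k hd3 hk
  exact sparseVolCut_of_families hM (hq.trans hf.1) (hq.trans hf.2)

theorem SparseVolCut.mono {α : Type*} [Fintype α] {G : SimpleGraph α} {ε ε' : ℝ}
    (h : SparseVolCut G ε) (hε : ε ≤ ε') : SparseVolCut G ε' := by
  obtain ⟨S, h1, h2, h3⟩ := h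
  exact ⟨S, h1, h2, h3.trans (by gcongr)⟩

theorem SparseCut.mono {α : Type*} [Fintype α] {G : SimpleGraph α} {ε ε' : ℝ}
    (h : SparseCut G ε) (hε : ε ≤ ε') : SparseCut G ε' := by
  obtain ⟨S, h1, h2, h3⟩ := h
  exact ⟨S, h1, h2, h3.trans (by gcongr)⟩

end Pool.Agent.Q179.LPM
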