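import Pool.Agent.Q179.LPM.Planar

/-!
# The cut by a corner vertex
-/

open Set Filter

namespace Pool.Agent.Q179.LPM

theorem vol_add {α : Type*} [Fintype α] (G : SimpleGraph α) (S T : Finset α)
    (h : ∀ v, v ∈ S ↔ v ∉ T) : vol G S + vol G T = vol G Finset.univ := by
  classical
  unfold vol
  rw [← Finset.sum_union]
  · congr 1
    ext v
    simp only [Finset.mem_union, Finset.mem_univ, iff_true]
    rw [h]
    exact (em (v ∈ T)).symm
  · rw [Finset.disjoint_left]
    intro v hv
    exact (h v).1 hv

theorem sparseVolCut_of {α : Type*} [Fintype α] (G : SimpleGraph α) (S T : Finset α)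
    (h : ∀ v, v ∈ S ↔ v ∉ T) (M : ℕ) (hM : 1 ≤ M) (hS : cut G S ≤ S.card)
    (hT : cut G T ≤ T.card) (hS2 : M * S.card ≤ 2 * vol G S) (hT2 : M * T.card ≤ 2 * vol G T)
    (hS0 : 0 < S.card) (hT0 : 0 < T.card) : SparseVolCut G (2 / M) := by
  have hadd := vol_add G S T h
  have hM' : (0 : ℝ) < M := by exact_mod_cast hM
  have aux : ∀ R : Finset α, cut G R ≤ R.card → M * R.card ≤ 2 * vol G R → 0 < R.card →
      2 * vol G R ≤ vol G Finset.univ → SparseVolCut G (2 / M) := by
    intro R h1 h2 h3 h4
    refine ⟨R, ?_, h4, ?_⟩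
    · have : 0 < M * R.card := Nat.mul_pos hM h3
      omega
    · have h5 : (cut G R : ℝ) ≤ R.card := by exact_mod_cast h1
      have h6 : (M : ℝ) * R.card ≤ 2 * vol G R := by exact_mod_cast h2
      calc (cut G R : ℝ) ≤ R.card := h5
        _ = (M * R.card) / M := by field_simp
        _ ≤ (2 * vol G R) / M := by gcongr
        _ = 2 / M * vol G R := by ring
  rcases le_total (vol G S) (vol G T) with h1 | h1
  · exact aux S hS hS2 hS0 (by omega)
  · exact aux T hT hT2 hT0 (by omega)

/-- Polytopes with the vertex `0`. -/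
noncomputable def withZero (d k : ℕ) : Finset {V : Finset (Fin d → ℤ) // V ∈ polys d k} := by
  classical
  exact Finset.univ.filter (fun V => (0 : Fin d → ℤ) ∈ V.1)

/-- Polytopes without the vertex `0`. -/
noncomputable def withoutZero (d k : ℕ) : Finset {V : Finset (Fin d → ℤ) // V ∈ polys d k} := by
  classical
  exact Finset.univ.filter (fun V => (0 : Fin d → ℤ) ∉ V.1)

theorem mem_withZero {d k : ℕ} (V : {V : Finset (Fin d → ℤ) // V ∈ polys d k}) :
    V ∈ withZero d k ↔ (0 : Fin d → ℤ) ∈ V.1 := by
  classical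
  unfold withZero
  simp

theorem mem_withoutZero {d k : ℕ} (V : {V : Finset (Fin d → ℤ) // V ∈ polys d k}) :
    V ∈ withoutZero d k ↔ (0 : Fin d → ℤ) ∉ V.1 := by
  classical
  unfold withoutZero
  simp

theorem adj_zero {d k : ℕ} {A B : {V : Finset (Fin d → ℤ) // V ∈ polys d k}}
    (hA : (0 : Fin d → ℤ) ∈ A.1) (hB : (0 : Fin d → ℤ) ∉ B.1) (h : (Lam d k).Adj A B) :
    A.1 = insert 0 B.1 := by
  rcases h with ⟨x, hx, h⟩ | ⟨x, hx, h⟩
  · exact absurd (by rw [h]; exact Finset.mem_insert_of_mem hA) hB
  · rw [h, Finset.mem_insert] at hA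
    rcases hA with hA | hA
    · rw [hA]
      exact h
    · exact absurd hA hB

theorem cut_withZero (d k : ℕ) : cut (Lam d k) (withZero d k) ≤ (withZero d k).card := by
  apply cut_le_card _ _ _ (fun A _ => A)
  · intro A B hA _ _
    exact hA
  · intro A B A' B' hA hB h hA' hB' h' e
    refine ⟨e, ?_⟩
    have e' : A = A' := e
    subst e'
    rw [mem_withZero] at hA hB hB'
    have h1 := adj_zero hA hB h
    have h2 := adj_zero hA hB' h'
    apply Subtype.ext
    rw [← Finset.erase_insert hB, ← Finset.erase_insert hB', ← h1, ← h2]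

theorem cut_withoutZero (d k : ℕ) :
    cut (Lam d k) (withoutZero d k) ≤ (withoutZero d k).card := by
  apply cut_le_card _ _ _ (fun A _ => A)
  · intro A B hA _ _
    exact hA
  · intro A B A' B' hA hB h hA' hB' h' e
    refine ⟨e, ?_⟩
    have e' : A = A' := e
    subst e'
    rw [mem_withoutZero] at hA hB hB'
    rw [not_not] at hB hB'
    have h1 := adj_zero hB hA h.symm
    have h2 := adj_zero hB' hA h'.symm
    apply Subtype.ext
    rw [h1, h2]

/-- All but at most `d + 1` vertices can be deleted. -/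
theorem card_le_degree {d k : ℕ} (V : {V : Finset (Fin d → ℤ) // V ∈ polys d k})
    (N : Finset {V : Finset (Fin d → ℤ) // V ∈ polys d k})
    (hN : ∀ W, W ∈ N ↔ (Lam d k).Adj V W) : V.1.card ≤ N.card + (d + 1) := by
  classical
  obtain ⟨hbox, hind, hspan⟩ := mem_polys.1 V.2
  obtain ⟨t, ht, hts, hta⟩ := exists_affineIndependent ℝ (Fin d → ℝ) (toR '' (V.1 : Set (Fin d → ℤ)))
  rw [hspan] at hts
  have htfin : t.Finite := ((V.1.finite_toSet).image _).subset ht
  have htcard : htfin.toFinset.card ≤ d + 1 := by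
    have : Fintype t := htfin.fintype
    have h1 : Fintype.card t ≤ _ := hta.card_le_finrank_succ
    have h2 : Module.finrank ℝ (vectorSpan ℝ (Set.range ((↑) : t → (Fin d → ℝ)))) ≤ d := by
      have := Submodule.finrank_le (vectorSpan ℝ (Set.range ((↑) : t → (Fin d → ℝ))))
      simpa using this
    have h3 : Fintype.card t = htfin.toFinset.card :=
      Fintype.card_of_finset' htfin.toFinset (fun x => by simp)
    omega
  set B := V.1.filter (fun v => toR v ∈ t) with hB
  have hBcard : B.card ≤ d + 1 := by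
    refine le_trans ?_ htcard
    apply Finset.card_le_card_of_injOn toR
    · intro v hv
      rw [Finset.mem_coe, hB, Finset.mem_filter] at hv
      rw [Finset.mem_coe, Set.Finite.mem_toFinset]
      exact hv.2
    · intro v _ w _ h
      exact toR_injective h
  have hgood : ∀ v ∈ V.1 \ B, V.1.erase v ∈ polys d k := by
    intro v hv
    rw [Finset.mem_sdiff, hB, Finset.mem_filter, not_and] at hv
    rw [mem_polys]
    refine ⟨fun w hw => hbox w (Finset.mem_of_mem_erase hw), ?_, ?_⟩
    · exact Indep.mono (W := V.1) hind (Finset.erase_subset _ _)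
    · rw [eq_top_iff, ← hts]
      apply affineSpan_mono
      intro z hz
      obtain ⟨w, hw, rfl⟩ := ht hz
      refine ⟨w, ?_, rfl⟩
      rw [Finset.mem_coe, Finset.mem_erase]
      refine ⟨?_, hw⟩
      rintro rfl
      exact hv.2 hv.1 hz
  have hinj : (V.1 \ B).card ≤ N.card := by
    apply Finset.card_le_card_of_injOn
      (fun v => if h : V.1.erase v ∈ polys d k then (⟨V.1.erase v, h⟩ :
        {V : Finset (Fin d → ℤ) // V ∈ polys d k}) else V)
    · intro v hv
      rw [Finset.mem_coe] at hv
      have hg := hgood v hv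
      have hvV : v ∈ V.1 := (Finset.mem_sdiff.1 hv).1
      simp only [hg, dite_true]
      rw [Finset.mem_coe, hN]
      right
      exact ⟨v, Finset.notMem_erase _ _, (Finset.insert_erase hvV).symm⟩
    · intro v hv w hw h
      rw [Finset.mem_coe] at hv hw
      have hg := hgood v hv
      have hg' := hgood w hw
      simp only [hg, hg', dite_true, Subtype.mk.injEq] at h
      by_contra hne
      have hvV : v ∈ V.1 := (Finset.mem_sdiff.1 hv).1
      have : v ∈ V.1.erase w := Finset.mem_erase.2 ⟨hne, hvV⟩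
      rw [← h] at this
      exact Finset.notMem_erase _ _ this
  have h1 : (V.1 \ B).card = V.1.card - B.card :=
    Finset.card_sdiff_of_subset (Finset.filter_subset _ _)
  omega

/-- Number of polytopes with few vertices. -/
theorem card_few (d k m : ℕ) (T : Finset {V : Finset (Fin d → ℤ) // V ∈ polys d k})
    (hT : ∀ V ∈ T, V.1.card ≤ m) : T.card ≤ ((k + 1) ^ d + 1) ^ m := by
  classical
  have hB : (Finset.Icc (0 : Fin d → ℤ) (fun _ => (k : ℤ))).card = (k + 1) ^ d := by
    rw [Pi.card_Icc]
    simp
  have h := card_small_subsets (Finset.Icc (0 : Fin d → ℤ) (fun _ => (k : ℤ))) m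
    (T.image (fun V => V.1)) (by
      intro V hV
      rw [Finset.mem_image] at hV
      obtain ⟨W, hW, rfl⟩ := hV
      refine ⟨?_, hT W hW⟩
      have := W.2
      unfold polys at this
      rw [Finset.mem_filter, Finset.mem_powerset] at this
      exact this.1)
  rw [hB, Finset.card_image_of_injective _ Subtype.val_injective] at h
  exact h

theorem vol_ge (d k M : ℕ) (T : Finset {V : Finset (Fin d → ℤ) // V ∈ polys d k}) :
    M * T.card ≤ vol (Lam d k) T + M * ((k + 1) ^ d + 1) ^ (M + d) := by
  classical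
  set T1 := T.filter (fun V => V.1.card ≤ M + d) with hT1
  set T2 := T.filter (fun V => ¬ V.1.card ≤ M + d) with hT2
  have hsum : T1.card + T2.card = T.card :=
    Finset.card_filter_add_card_filter_not (s := T) (fun V => V.1.card ≤ M + d)
  have h1 : T1.card ≤ ((k + 1) ^ d + 1) ^ (M + d) := by
    apply card_few
    intro V hV
    exact (Finset.mem_filter.1 hV).2
  have h2 : M * T2.card ≤ vol (Lam d k) T := by
    unfold vol
    have h3 : M * T2.card ≤ ∑ v ∈ T2, (Finset.univ.filter (fun w => (Lam d k).Adj v w)).card := by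
      rw [mul_comm, ← smul_eq_mul]
      apply Finset.card_nsmul_le_sum
      intro V hV
      have h4 := (Finset.mem_filter.1 hV).2
      have h5 := card_le_degree V (Finset.univ.filter (fun w => (Lam d k).Adj V w)) (by
        intro W
        simp)
      omega
    refine h3.trans ?_
    apply Finset.sum_le_sum_of_subset
    exact Finset.filter_subset _ _
  have h6 : M * T1.card ≤ M * ((k + 1) ^ d + 1) ^ (M + d) := Nat.mul_le_mul_left _ h1
  calc M * T.card = M * T1.card + M * T2.card := by rw [← hsum]; ring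
    _ ≤ _ := by omega

/-- Many polytopes between `B` and `Y`. -/
theorem card_family {d k : ℕ} (Y B : Finset (Fin d → ℤ)) (hBY : B ⊆ Y) (hY : Indep Y)
    (hbox : ∀ v ∈ Y, ∀ i, 0 ≤ v i ∧ v i ≤ k)
    (hspan : affineSpan ℝ (toR '' (B : Set (Fin d → ℤ))) = ⊤)
    (T : Finset {V : Finset (Fin d → ℤ) // V ∈ polys d k})
    (hT : ∀ V, B ⊆ V.1 → V.1 ⊆ Y → V ∈ T) : 2 ^ (Y \ B).card ≤ T.card := by
  classical
  rw [← Finset.card_powerset]
  have hgood : ∀ R ∈ (Y \ B).powerset, B ∪ R ∈ polys d k := by
    intro R hR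
    rw [Finset.mem_powerset] at hR
    have hsub : B ∪ R ⊆ Y := Finset.union_subset hBY (hR.trans Finset.sdiff_subset)
    rw [mem_polys]
    refine ⟨fun v hv => hbox v (hsub hv), hY.mono hsub, ?_⟩
    rw [eq_top_iff, ← hspan]
    apply affineSpan_mono
    apply Set.image_mono
    intro v hv
    exact Finset.mem_union_left _ hv
  have hne : (polys d k).Nonempty := ⟨_, hgood ∅ (by simp)⟩
  obtain ⟨V0, hV0⟩ := hne
  apply Finset.card_le_card_of_injOn
    (fun R => if h : B ∪ R ∈ polys d k then (⟨B ∪ R, h⟩ :
      {V : Finset (Fin d → ℤ) // V ∈ polys d k}) else ⟨V0, hV0⟩)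
  · intro R hR
    rw [Finset.mem_coe] at hR
    have hg := hgood R hR
    simp only [hg, dite_true]
    rw [Finset.mem_coe]
    apply hT
    · exact Finset.subset_union_left
    · rw [Finset.mem_powerset] at hR
      exact Finset.union_subset hBY (hR.trans Finset.sdiff_subset)
  · intro R hR R' hR' h
    rw [Finset.mem_coe] at hR hR'
    have hg := hgood R hR
    have hg' := hgood R' hR'
    simp only [hg, hg', dite_true, Subtype.mk.injEq] at h
    rw [Finset.mem_powerset] at hR hR'
    have e : ∀ R ⊆ Y \ B, (B ∪ R) \ B = R := by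
      intro R hR
      rw [Finset.union_sdiff_left]
      rw [Finset.sdiff_eq_self_iff_disjoint, Finset.disjoint_left]
      intro v hv
      exact (Finset.mem_sdiff.1 (hR hv)).2
    rw [← e R hR, ← e R' hR', h]

/-- The main estimate: two large families give a sparse cut. -/
theorem sparseVolCut_of_families {d k M : ℕ} (hM : 1 ≤ M)
    (h0 : 2 * ((k + 1) ^ d + 1) ^ (M + d) ≤ (withZero d k).card)
    (h1 : 2 * ((k + 1) ^ d + 1) ^ (M + d) ≤ (withoutZero d k).card) :
    SparseVolCut (Lam d k) (2 / M) := by
  have hq : 0 < ((k + 1) ^ d + 1) ^ (M + d) := by positivity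
  have v0 := vol_ge d k M (withZero d k)
  have v1 := vol_ge d k M (withoutZero d k)
  apply sparseVolCut_of (Lam d k) (withZero d k) (withoutZero d k) _ M hM (cut_withZero d k)
    (cut_withoutZero d k)
  · nlinarith
  · nlinarith
  · omega
  · omega
  · intro V
    rw [mem_withZero, mem_withoutZero, not_not]

end Pool.Agent.Q179.LPM
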