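import Pool.Agent.Q179.LPM.Size

/-!
# Sparse cuts of the polygon graph
-/

open Set Filter

namespace Pool.Agent.Q179.LPM

/-- Unit vectors in the direction give the whole space. -/
theorem span_top_of_units {d : ℕ} {V : Finset (Fin d → ℤ)} (hne : V.Nonempty)
    (h : ∀ i, (Pi.single i 1 : Fin d → ℝ) ∈
      (affineSpan ℝ (toR '' (V : Set (Fin d → ℤ)))).direction) :
    affineSpan ℝ (toR '' (V : Set (Fin d → ℤ))) = ⊤ := by
  obtain ⟨p, hp⟩ := hne
  have hn : (affineSpan ℝ (toR '' (V : Set (Fin d → ℤ))) : Set (Fin d → ℝ)).Nonempty :=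
    ⟨toR p, subset_affineSpan ℝ _ ⟨p, hp, rfl⟩⟩
  rw [← AffineSubspace.direction_eq_top_iff_of_nonempty hn, eq_top_iff,
    ← (Pi.basisFun ℝ (Fin d)).span_eq, Submodule.span_le]
  rintro _ ⟨i, rfl⟩
  rw [Pi.basisFun_apply]
  exact h i

theorem sub_mem_direction {d : ℕ} {V : Finset (Fin d → ℤ)} {x y : Fin d → ℤ} (hx : x ∈ V)
    (hy : y ∈ V) : toR x - toR y ∈ (affineSpan ℝ (toR '' (V : Set (Fin d → ℤ)))).direction :=
  AffineSubspace.vsub_mem_direction (subset_affineSpan ℝ _ ⟨x, hx, rfl⟩)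
    (subset_affineSpan ℝ _ ⟨y, hy, rfl⟩)

/-- Convex independence from exposing functionals. -/
theorem indep_of_exposed {d : ℕ} {V : Finset (Fin d → ℤ)}
    (h : ∀ x ∈ V, ∃ l : (Fin d → ℝ) →ₗ[ℝ] ℝ, ∀ y ∈ V, y ≠ x → l (toR y) < l (toR x)) :
    Indep V := by
  intro x hx
  obtain ⟨l, hl⟩ := h x hx
  exact not_mem_hull_of_exposed l (fun y hy => hl y hy.1 hy.2)

theorem F_nonempty {k : ℤ} (hk : 1 ≤ k) : (F k k).Nonempty := by
  classical
  refine ⟨{![0, 0], ![1, 0], ![0, 1]}, ?_⟩
  rw [mem_F]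
  refine ⟨?_, ?_, ?_⟩
  · intro v hv
    simp only [Finset.mem_insert, Finset.mem_singleton] at hv
    rcases hv with rfl | rfl | rfl <;> simp <;> omega
  · apply indep_of_exposed
    intro x hx
    simp only [Finset.mem_insert, Finset.mem_singleton] at hx
    rcases hx with rfl | rfl | rfl
    · refine ⟨-(LinearMap.proj (R := ℝ) (φ := fun _ : Fin 2 => ℝ) 0)
        - LinearMap.proj (R := ℝ) (φ := fun _ : Fin 2 => ℝ) 1, ?_⟩
      intro y hy hne
      simp only [Finset.mem_insert, Finset.mem_singleton] at hy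
      rcases hy with rfl | rfl | rfl
      · exact absurd rfl hne
      · simp [toR]
      · simp [toR]
    · refine ⟨LinearMap.proj 0, ?_⟩
      intro y hy hne
      simp only [Finset.mem_insert, Finset.mem_singleton] at hy
      rcases hy with rfl | rfl | rfl
      · simp [toR]
      · exact absurd rfl hne
      · simp [toR]
    · refine ⟨LinearMap.proj 1, ?_⟩
      intro y hy hne
      simp only [Finset.mem_insert, Finset.mem_singleton] at hy
      rcases hy with rfl | rfl | rfl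
      · simp [toR]
      · simp [toR]
      · exact absurd rfl hne
  · apply span_top_of_units (by simp)
    intro i
    fin_cases i
    · have := sub_mem_direction (V := {![0, 0], ![1, 0], ![0, 1]}) (x := ![1, 0]) (y := ![0, 0])
        (by simp) (by simp)
      convert this using 1
      funext j
      fin_cases j <;> simp [toR]
    · have := sub_mem_direction (V := {![0, 0], ![1, 0], ![0, 1]}) (x := ![0, 1]) (y := ![0, 0])
        (by simp) (by simp)
      convert this using 1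
      funext j
      fin_cases j <;> simp [toR]

/-- The cut by the leftmost coordinate has at most as many edges as there are polygons with a
unique leftmost vertex. -/
theorem cut_le (k : ℕ) (t : ℤ) (S : Finset {V : Finset (Fin 2 → ℤ) // V ∈ polys 2 k})
    (hS : ∀ V, V ∈ S ↔ V.1 ∈ St k t) : cut (Lam 2 k) S ≤ (U k).card := by
  classical
  have key : ∀ A B : {V : Finset (Fin 2 → ℤ) // V ∈ polys 2 k}, A ∈ S → B ∉ S →
      (Lam 2 k).Adj A B → ∃ x, x ∈ B.1 ∧ x 0 < t ∧ A.1 = B.1.erase x ∧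
        ∀ y ∈ B.1, y ≠ x → t ≤ y 0 := by
    intro A B hA hB hadj
    rw [hS] at hA hB
    rw [mem_St] at hA hB
    have hBF : B.1 ∈ F k k := by
      rw [← polys_two]
      exact B.2
    rcases hadj with ⟨x, hx, h⟩ | ⟨x, hx, h⟩
    · have hex : ¬ ∀ v ∈ B.1, t ≤ v 0 := fun hh => hB ⟨hBF, hh⟩
      push Not at hex
      obtain ⟨w, hw, hwt⟩ := hex
      rw [h, Finset.mem_insert] at hw
      have hwx : w = x := by
        rcases hw with hw | hw
        · exact hw
        · have := hA.2 w hw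
          omega
      subst hwx
      refine ⟨w, by rw [h]; exact Finset.mem_insert_self _ _, hwt, ?_, ?_⟩
      · rw [h, Finset.erase_insert hx]
      · intro y hy hne
        rw [h, Finset.mem_insert] at hy
        rcases hy with hy | hy
        · exact absurd hy hne
        · exact hA.2 y hy
    · exfalso
      apply hB
      refine ⟨hBF, fun v hv => hA.2 v ?_⟩
      rw [h]
      exact Finset.mem_insert_of_mem hv
  apply cut_le_card (Lam 2 k) S (U k) (fun _ B => B.1)
  · intro A B hA hB hadj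
    obtain ⟨x, hx, hxt, -, hy⟩ := key A B hA hB hadj
    unfold U
    rw [Finset.mem_filter]
    refine ⟨?_, x, hx, ?_⟩
    · rw [← polys_two]
      exact B.2
    · intro w hw hne
      exact hxt.trans_le (hy w hw hne)
  · intro A B A' B' hA hB hadj hA' hB' hadj' hBB
    have hB : B = B' := Subtype.ext hBB
    subst hB
    obtain ⟨x, hx, hxt, hAx, hy⟩ := key A B hA hB hadj
    obtain ⟨x', hx', hxt', hAx', hy'⟩ := key A' B hA' hB' hadj'
    have : x = x' := by
      by_contra hne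
      have h1 := hy' x hx hne
      have h2 : x 0 < t := hxt
      omega
    subst this
    exact ⟨Subtype.ext (hAx.trans hAx'.symm), rfl⟩

/-- A balanced cut with few edges. -/
theorem exists_cut (k : ℕ) (hk : 1 ≤ k)
    (hD : 4 * ((F k k).card - (F (k - 1) (k - 1)).card) ≤ (F k k).card) :
    ∃ S : Finset {V : Finset (Fin 2 → ℤ) // V ∈ polys 2 k}, S.Nonempty ∧
      2 * S.card ≤ Fintype.card {V : Finset (Fin 2 → ℤ) // V ∈ polys 2 k} ∧
      (F k k).card ≤ 4 * S.card ∧
      cut (Lam 2 k) S ≤ (F k k).card - (F (k - 1) (k - 1)).card := by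
  classical
  have hpos : 0 < (F k k).card := Finset.card_pos.2 (F_nonempty (by exact_mod_cast hk))
  have hex : ∃ t : ℕ, 2 * (St k t).card ≤ (F k k).card := by
    refine ⟨k + 1, ?_⟩
    have := St_top k
    push_cast
    rw [this]
    simp
  set t := Nat.find hex with ht
  have hspec : 2 * (St k t).card ≤ (F k k).card := Nat.find_spec hex
  have ht0 : t ≠ 0 := by
    intro h0
    rw [h0] at hspec
    have := St_zero k
    push_cast at hspec
    rw [this] at hspec
    omega
  have hmin : (F k k).card < 2 * (St k ((t - 1 : ℕ) : ℤ)).card := by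
    have := Nat.find_min hex (m := t - 1) (by omega)
    omega
  have hstep := step_le (k : ℤ) ((t - 1 : ℕ) : ℤ) (by positivity)
  have e1 : (((t - 1 : ℕ) : ℤ) + 1) = (t : ℤ) := by
    have : 1 ≤ t := by omega
    push_cast [Nat.cast_sub this]
    ring
  rw [e1] at hstep
  have h1 : (F ((k : ℤ) - 1) (k - 1)).card ≤ (F ((k : ℤ) - 1) k).card :=
    Finset.card_le_card (F_mono le_rfl (by omega))
  have h2 : (F ((k : ℤ) - 1) (k - 1)).card ≤ (F (k : ℤ) (k - 1)).card :=
    Finset.card_le_card (F_mono (by omega) le_rfl)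
  have h3 := card_U_add (k : ℤ)
  let S : Finset {V : Finset (Fin 2 → ℤ) // V ∈ polys 2 k} :=
    Finset.univ.filter (fun V => V.1 ∈ St k t)
  have hS : ∀ V, V ∈ S ↔ V.1 ∈ St k t := by
    intro V
    simp [S]
  have hcard : S.card = (St k t).card := by
    apply Finset.card_bij (fun V _ => V.1)
    · intro V hV
      exact (hS V).1 hV
    · intro V _ W _ h
      exact Subtype.ext h
    · intro V hV
      have : V ∈ polys 2 k := by
        rw [polys_two]
        exact (mem_St.1 hV).1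
      exact ⟨⟨V, this⟩, (hS _).2 hV, rfl⟩
  have hcardV : Fintype.card {V : Finset (Fin 2 → ℤ) // V ∈ polys 2 k} = (F k k).card := by
    rw [Fintype.card_coe, polys_two]
  have hcut := cut_le k t S hS
  refine ⟨S, ?_, ?_, ?_, ?_⟩
  · rw [← Finset.card_pos, hcard]
    omega
  · rw [hcard, hcardV]
    exact hspec
  · rw [hcard]
    omega
  · omega

/-- Bound on the logarithm of the number of polygons. -/
theorem log_card_le (k : ℕ) (hk : 2 ≤ k) :
    Real.log (F k k).card ≤ 136 * (k : ℝ) ^ (2 / 3 : ℝ) * Real.log k := by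
  set c : ℝ := (k : ℝ) ^ (1 / 3 : ℝ) with hc
  have hk' : (2 : ℝ) ≤ k := by exact_mod_cast hk
  have hk0 : (0 : ℝ) < k := by linarith
  have hc1 : 1 ≤ c := Real.one_le_rpow (by linarith) (by norm_num)
  have hc3 : c ^ 3 = k := by
    rw [hc, ← Real.rpow_natCast, ← Real.rpow_mul hk0.le]
    norm_num
  have hc2 : c ^ 2 = (k : ℝ) ^ (2 / 3 : ℝ) := by
    rw [hc, ← Real.rpow_natCast, ← Real.rpow_mul hk0.le]
    norm_num
  set A := ⌈c⌉₊ with hA
  have hA1 : c ≤ A := Nat.le_ceil c
  have hA2 : (A : ℝ) ≤ 2 * c := by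
    have := (Nat.ceil_lt_add_one (by linarith : (0 : ℝ) ≤ c)).le
    linarith
  set n := 2 + 2 * (1 + A * (2 * A + 1) + 3 * (k / (A + 1))) with hn
  have hdiv : ((k / (A + 1) : ℕ) : ℝ) ≤ c ^ 2 := by
    have h1 : ((k / (A + 1) : ℕ) : ℝ) ≤ (k : ℝ) / ((A + 1 : ℕ) : ℝ) := Nat.cast_div_le
    have h2 : (k : ℝ) / ((A + 1 : ℕ) : ℝ) ≤ k / c := by
      apply div_le_div_of_nonneg_left hk0.le (by linarith)
      push_cast
      linarith
    have h3 : (k : ℝ) / c = c ^ 2 := by
      rw [← hc3]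
      field_simp
    linarith
  have hn34 : (n : ℝ) ≤ 34 * c ^ 2 := by
    rw [hn]
    push_cast
    have hAA : (A : ℝ) * (2 * A + 1) ≤ 12 * c ^ 2 := by nlinarith
    nlinarith
  have hcard := card_F_le k A n le_rfl
  have hcpos : 0 < (F k k).card := Finset.card_pos.2 (F_nonempty (by exact_mod_cast (by omega : 1 ≤ k)))
  have hlog : Real.log (F k k).card ≤ n * Real.log ((k + 1) ^ 2 + 1) := by
    rw [← Real.log_pow]
    apply Real.log_le_log (by exact_mod_cast hcpos)
    exact_mod_cast hcard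
  have hlog2 : Real.log (((k : ℝ) + 1) ^ 2 + 1) ≤ 4 * Real.log k := by
    have : 4 * Real.log (k : ℝ) = Real.log ((k : ℝ) ^ 4) := by
      rw [Real.log_pow]
      norm_num
    rw [this]
    apply Real.log_le_log (by positivity)
    nlinarith [mul_self_nonneg ((k : ℝ) - 2), mul_self_nonneg ((k : ℝ) ^ 2 - 4)]
  have hlog0 : 0 ≤ Real.log (k : ℝ) := Real.log_nonneg (by linarith)
  have hlog1 : 0 ≤ Real.log (((k : ℝ) + 1) ^ 2 + 1) := Real.log_nonneg (by nlinarith)
  calc Real.log (F k k).card ≤ n * Real.log ((k + 1) ^ 2 + 1) := hlog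
    _ ≤ (34 * c ^ 2) * Real.log ((k + 1) ^ 2 + 1) := by gcongr
    _ ≤ (34 * c ^ 2) * (4 * Real.log k) := by gcongr
    _ = 136 * (k : ℝ) ^ (2 / 3 : ℝ) * Real.log k := by
      rw [← hc2]
      ring

/-- In every dyadic interval there is a side length at which the number of polygons grows
slowly. -/
theorem exists_slow (K : ℕ) (hK : 2 ≤ K) :
    ∃ k, K < k ∧ k ≤ 2 * K ∧ ((F k k).card : ℝ) - (F (k - 1) (k - 1)).card
      ≤ (136 * ((2 * K : ℕ) : ℝ) ^ (2 / 3 : ℝ) * Real.log ((2 * K : ℕ) : ℝ) / K)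
        * (F k k).card := by
  set δ := 136 * ((2 * K : ℕ) : ℝ) ^ (2 / 3 : ℝ) * Real.log ((2 * K : ℕ) : ℝ) / K with hδ
  by_contra hcon
  push Not at hcon
  have hKpos : (0 : ℝ) < K := by exact_mod_cast (by omega : 0 < K)
  have hstep : ∀ j : ℕ, j ≤ K → ((F (K : ℤ) K).card : ℝ)
      ≤ Real.exp (-(δ * j)) * (F ((K + j : ℕ) : ℤ) ((K + j : ℕ) : ℤ)).card ∧
      (0 < j → ((F (K : ℤ) K).card : ℝ)
      < Real.exp (-(δ * j)) * (F ((K + j : ℕ) : ℤ) ((K + j : ℕ) : ℤ)).card) := by
    intro j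
    induction j with
    | zero =>
      intro _
      simp
    | succ j ih =>
      intro hj
      have h1 := (ih (by omega)).1
      have h2 := hcon (K + (j + 1)) (by omega) (by omega)
      have e : (((K + (j + 1) : ℕ) : ℤ) - 1) = ((K + j : ℕ) : ℤ) := by push_cast; ring
      rw [e] at h2
      have h3 : ((F ((K + j : ℕ) : ℤ) ((K + j : ℕ) : ℤ)).card : ℝ)
          < (1 - δ) * (F ((K + (j + 1) : ℕ) : ℤ) ((K + (j + 1) : ℕ) : ℤ)).card := by linarith
      have h4 : (1 - δ) * ((F ((K + (j + 1) : ℕ) : ℤ) ((K + (j + 1) : ℕ) : ℤ)).card : ℝ)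
          ≤ Real.exp (-δ) * (F ((K + (j + 1) : ℕ) : ℤ) ((K + (j + 1) : ℕ) : ℤ)).card := by
        gcongr
        have := Real.add_one_le_exp (-δ)
        linarith
      have hlt : ((F (K : ℤ) K).card : ℝ) < Real.exp (-(δ * ((j + 1 : ℕ) : ℝ)))
          * (F ((K + (j + 1) : ℕ) : ℤ) ((K + (j + 1) : ℕ) : ℤ)).card := by
        calc ((F (K : ℤ) K).card : ℝ)
            ≤ Real.exp (-(δ * j)) * (F ((K + j : ℕ) : ℤ) ((K + j : ℕ) : ℤ)).card := h1
          _ < Real.exp (-(δ * j)) * (Real.exp (-δ)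
              * (F ((K + (j + 1) : ℕ) : ℤ) ((K + (j + 1) : ℕ) : ℤ)).card) := by
              apply mul_lt_mul_of_pos_left (h3.trans_le h4) (Real.exp_pos _)
          _ = _ := by
              rw [← mul_assoc, ← Real.exp_add]
              congr 2
              push_cast
              ring
      exact ⟨hlt.le, fun _ => hlt⟩
  have h1 := (hstep K le_rfl).2 (by omega)
  have hone : (1 : ℝ) ≤ (F (K : ℤ) K).card := by
    have : 0 < (F (K : ℤ) K).card := Finset.card_pos.2 (F_nonempty (by exact_mod_cast (by omega : 1 ≤ K)))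
    exact_mod_cast this
  have e2 : ((K + K : ℕ) : ℤ) = ((2 * K : ℕ) : ℤ) := by push_cast; ring
  rw [e2] at h1
  have h2 := log_card_le (2 * K) (by omega)
  have hpos : (0 : ℝ) < (F ((2 * K : ℕ) : ℤ) ((2 * K : ℕ) : ℤ)).card := by
    have : 0 < (F ((2 * K : ℕ) : ℤ) ((2 * K : ℕ) : ℤ)).card :=
      Finset.card_pos.2 (F_nonempty (by exact_mod_cast (by omega : 1 ≤ 2 * K)))
    exact_mod_cast this
  have h3 : ((F ((2 * K : ℕ) : ℤ) ((2 * K : ℕ) : ℤ)).card : ℝ) ≤ Real.exp (δ * K) := by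
    rw [← Real.exp_log hpos]
    apply Real.exp_le_exp.2
    have : δ * K = 136 * ((2 * K : ℕ) : ℝ) ^ (2 / 3 : ℝ) * Real.log ((2 * K : ℕ) : ℝ) := by
      rw [hδ]
      field_simp
    rw [this]
    exact h2
  have h4 : Real.exp (-(δ * K)) * ((F ((2 * K : ℕ) : ℤ) ((2 * K : ℕ) : ℤ)).card : ℝ) ≤ 1 := by
    calc Real.exp (-(δ * K)) * ((F ((2 * K : ℕ) : ℤ) ((2 * K : ℕ) : ℤ)).card : ℝ)
        ≤ Real.exp (-(δ * K)) * Real.exp (δ * K) := by gcongr
      _ = 1 := by rw [← Real.exp_add]; simp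
  linarith

end Pool.Agent.Q179.LPM
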