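import Pool.Agent.Q179.LPM.Count

/-!
# Size of convexly independent sets and number of polygons
-/

open Set

namespace Pool.Agent.Q179.LPM

theorem indep_map {d : ℕ} {V : Finset (Fin d → ℤ)} (hV : Indep V)
    (g : (Fin d → ℤ) ↪ (Fin d → ℤ)) (G : (Fin d → ℝ) →ᵃ[ℝ] (Fin d → ℝ))
    (hG : ∀ v, toR (g v) = G (toR v)) (hinj : Function.Injective G) : Indep (V.map g) := by
  classical
  intro x' hx'
  rw [Finset.mem_map] at hx'
  obtain ⟨x, hx, rfl⟩ := hx'
  have hd : ((V.map g : Finset (Fin d → ℤ)) : Set (Fin d → ℤ)) \ {g x}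
      = g '' ((V : Set (Fin d → ℤ)) \ {x}) := by
    rw [Finset.coe_map, Set.image_sdiff g.injective, Set.image_singleton]
  have hset : toR '' (g '' ((V : Set (Fin d → ℤ)) \ {x}))
      = G '' (toR '' ((V : Set (Fin d → ℤ)) \ {x})) := by
    rw [Set.image_image, Set.image_image]
    apply Set.image_congr
    intro v _
    exact hG v
  rw [hd, hset, ← AffineMap.image_convexHull, hG]
  rintro ⟨z, hz, hzx⟩
  have := hinj hzx
  rw [this] at hz
  exact hV x hx hz

/-- Reflection in a horizontal line. -/
def refl (k : ℤ) : (Fin 2 → ℤ) ↪ (Fin 2 → ℤ) where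
  toFun v := ![v 0, k - v 1]
  inj' v w h := by
    have h0 := congrFun h 0
    have h1 := congrFun h 1
    simp at h0 h1
    funext i
    fin_cases i
    · exact h0
    · exact h1

theorem refl_apply (k : ℤ) (v : Fin 2 → ℤ) : refl k v = ![v 0, k - v 1] := rfl

theorem indep_refl {V : Finset (Fin 2 → ℤ)} (hV : Indep V) (k : ℤ) : Indep (V.map (refl k)) := by
  let L : (Fin 2 → ℝ) →ₗ[ℝ] (Fin 2 → ℝ) :=
    LinearMap.pi ![LinearMap.proj 0, -LinearMap.proj 1]
  let G : (Fin 2 → ℝ) →ᵃ[ℝ] (Fin 2 → ℝ) :=
    L.toAffineMap + AffineMap.const ℝ (Fin 2 → ℝ) (![0, (k : ℝ)] : Fin 2 → ℝ)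
  have hG0 : ∀ z, G z 0 = z 0 := by
    intro z
    simp [G, L]
  have hG1 : ∀ z, G z 1 = k - z 1 := by
    intro z
    simp [G, L]
    ring
  apply indep_map hV (refl k) G
  · intro v
    funext i
    fin_cases i
    · show ((refl k v 0 : ℤ) : ℝ) = G (toR v) 0
      rw [hG0, refl_apply]
      simp [toR]
    · show ((refl k v 1 : ℤ) : ℝ) = G (toR v) 1
      rw [hG1, refl_apply]
      simp [toR]
  · intro z w h
    funext i
    fin_cases i
    · have := congrFun h 0
      rw [hG0, hG0] at this
      exact this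
    · have := congrFun h 1
      rw [hG1, hG1] at this
      show z 1 = w 1
      linarith

theorem exists_left_right {V : Finset (Fin 2 → ℤ)} (hV : IsVertexSet V) :
    ∃ L ∈ V, ∃ R ∈ V, L 0 < R 0 ∧ ∀ v ∈ V, L 0 ≤ v 0 ∧ v 0 ≤ R 0 := by
  have hne := nonempty_of_isVertexSet hV
  obtain ⟨L, hL, hLm⟩ := V.exists_min_image (fun v => v 0) hne
  obtain ⟨R, hR, hRm⟩ := V.exists_max_image (fun v => v 0) hne
  refine ⟨L, hL, R, hR, ?_, fun v hv => ⟨hLm v hv, hRm v hv⟩⟩
  by_contra hn
  have hall : ∀ v ∈ V, v 0 = L 0 := by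
    intro v hv
    have h1 := hLm v hv
    have h2 := hRm v hv
    omega
  have hspan : ∀ z ∈ affineSpan ℝ (toR '' (V : Set (Fin 2 → ℤ))), z 0 = (L 0 : ℝ) := by
    intro z hz
    refine affineSpan_induction (p := fun z : Fin 2 → ℝ => z 0 = (L 0 : ℝ)) hz ?_ ?_
    · rintro _ ⟨v, hv, rfl⟩
      show ((v 0 : ℤ) : ℝ) = _
      rw [hall v hv]
    · intro c u v w h1 h2 h3
      simp only [vsub_eq_sub, vadd_eq_add, Pi.add_apply, Pi.smul_apply, Pi.sub_apply, smul_eq_mul]
      rw [h1, h2, h3]
      ring
  have := hspan (fun _ => (L 0 : ℝ) + 1) (by rw [hV.2]; trivial)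
  linarith

/-- A convexly independent spanning set in `[0,k]^2` is small. -/
theorem card_le {k A : ℕ} {V : Finset (Fin 2 → ℤ)} (hV : V ∈ F k k) :
    ((V.card : ℕ) : ℤ) ≤ 2 + 2 * (1 + A * (2 * A + 1) + 3 * (k / (A + 1))) := by
  classical
  have hF := mem_F.1 hV
  obtain ⟨L, hL, R, hR, hLR, hmin⟩ := exists_left_right hF.2
  have h1 := card_above (A := A) hF.2.1 hF.1 hL hR hLR hmin
  -- the reflected set
  have h2 : (((V.filter (fun v => det3 L R v < 0)).card : ℕ) : ℤ)
      ≤ 1 + A * (2 * A + 1) + 3 * (k / (A + 1)) := by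
    have hI := indep_refl hF.2.1 k
    have hb : ∀ v ∈ V.map (refl k), (0 ≤ v 0 ∧ v 0 ≤ (k : ℤ)) ∧ (0 ≤ v 1 ∧ v 1 ≤ (k : ℤ)) := by
      intro w hw
      rw [Finset.mem_map] at hw
      obtain ⟨v, hv, rfl⟩ := hw
      rw [refl_apply]
      have := hF.1 v hv
      simp
      omega
    have hdet : ∀ v, det3 (refl k L) (refl k R) (refl k v) = - det3 L R v := by
      intro v
      rw [refl_apply, refl_apply, refl_apply]
      unfold det3
      simp
      ring
    have h3 := card_above (A := A) hI hb (Finset.mem_map_of_mem _ hL) (Finset.mem_map_of_mem _ hR)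
      (by rw [refl_apply, refl_apply]; simpa using hLR) (by
        intro w hw
        rw [Finset.mem_map] at hw
        obtain ⟨v, hv, rfl⟩ := hw
        simpa [refl_apply] using hmin v hv)
    refine le_trans ?_ h3
    have : (V.filter (fun v => det3 L R v < 0)).card
        ≤ ((V.map (refl k)).filter (fun v => 0 < det3 (refl k L) (refl k R) v)).card := by
      apply Finset.card_le_card_of_injOn (refl k)
      · intro v hv
        rw [Finset.mem_coe, Finset.mem_filter] at hv
        rw [Finset.mem_coe, Finset.mem_filter, hdet]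
        exact ⟨Finset.mem_map_of_mem _ hv.1, by omega⟩
      · intro v _ w _ h
        exact (refl k).injective h
    exact_mod_cast this
  have hcover : V ⊆ {L, R} ∪ V.filter (fun v => 0 < det3 L R v)
      ∪ V.filter (fun v => det3 L R v < 0) := by
    intro v hv
    by_cases hvL : v = L
    · simp [hvL]
    by_cases hvR : v = R
    · simp [hvR]
    have := det3_ne_zero hF.2.1 hL hR hv hLR (hmin v hv).1 (hmin v hv).2 hvL hvR
    rcases lt_or_gt_of_ne this with h | h
    · simp [hv, h]
    · simp [hv, h]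
  have hcard : V.card ≤ 2 + (V.filter (fun v => 0 < det3 L R v)).card
      + (V.filter (fun v => det3 L R v < 0)).card := by
    calc V.card ≤ _ := Finset.card_le_card hcover
      _ ≤ (({L, R} : Finset (Fin 2 → ℤ)) ∪ V.filter (fun v => 0 < det3 L R v)).card
          + (V.filter (fun v => det3 L R v < 0)).card := Finset.card_union_le _ _
      _ ≤ (({L, R} : Finset (Fin 2 → ℤ)).card + (V.filter (fun v => 0 < det3 L R v)).card)
          + (V.filter (fun v => det3 L R v < 0)).card := by
          gcongr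
          exact Finset.card_union_le _ _
      _ ≤ _ := by
          gcongr
          exact Finset.card_le_two
  have : ((V.card : ℕ) : ℤ) ≤ 2 + ((V.filter (fun v => 0 < det3 L R v)).card : ℤ)
      + ((V.filter (fun v => det3 L R v < 0)).card : ℤ) := by exact_mod_cast hcard
  linarith

/-- Number of subsets of size at most `n`. -/
theorem card_small_subsets {α : Type*} [DecidableEq α] (B : Finset α) (n : ℕ)
    (T : Finset (Finset α)) (hT : ∀ V ∈ T, V ⊆ B ∧ V.card ≤ n) :
    T.card ≤ (B.card + 1) ^ n := by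
  classical
  let φ : (Fin n → Option α) → Finset α := fun g => (Finset.univ.image g).eraseNone
  have hsub : T ⊆ (Fintype.piFinset (fun _ : Fin n => B.insertNone)).image φ := by
    intro V hV
    obtain ⟨h1, h2⟩ := hT V hV
    rw [Finset.mem_image]
    refine ⟨fun i => V.toList[(i : ℕ)]?, ?_, ?_⟩
    · rw [Fintype.mem_piFinset]
      intro i
      rw [Finset.mem_insertNone]
      intro a ha
      apply h1
      rw [← Finset.mem_toList]
      exact List.mem_of_getElem? ha
    · ext a
      simp only [φ, Finset.mem_eraseNone, Finset.mem_image, Finset.mem_univ, true_and]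
      constructor
      · rintro ⟨i, hi⟩
        rw [← Finset.mem_toList]
        exact List.mem_of_getElem? hi
      · intro ha
        rw [← Finset.mem_toList] at ha
        obtain ⟨i, hi⟩ := List.mem_iff_getElem?.1 ha
        have hlt : i < V.toList.length := by
          by_contra hn
          rw [not_lt] at hn
          rw [List.getElem?_eq_none hn] at hi
          simp at hi
        rw [Finset.length_toList] at hlt
        exact ⟨⟨i, hlt.trans_le h2⟩, hi⟩
  calc T.card ≤ _ := Finset.card_le_card hsub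
    _ ≤ (Fintype.piFinset (fun _ : Fin n => B.insertNone)).card := Finset.card_image_le
    _ = (B.card + 1) ^ n := by
      rw [Fintype.card_piFinset_const, Finset.card_insertNone]

theorem card_F_le (k A n : ℕ)
    (hn : 2 + 2 * (1 + A * (2 * A + 1) + 3 * (k / (A + 1))) ≤ n) :
    (F k k).card ≤ ((k + 1) ^ 2 + 1) ^ n := by
  classical
  have hB : (Finset.Icc (![0, 0] : Fin 2 → ℤ) ![(k : ℤ), (k : ℤ)]).card = (k + 1) ^ 2 := by
    rw [Pi.card_Icc, Fin.prod_univ_two]
    simp
    ring
  have := card_small_subsets (Finset.Icc (![0, 0] : Fin 2 → ℤ) ![(k : ℤ), (k : ℤ)]) n (F k k) (by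
    intro V hV
    refine ⟨?_, ?_⟩
    · have h := hV
      unfold F at h
      rw [Finset.mem_filter, Finset.mem_powerset] at h
      exact h.1
    · have h := card_le (A := A) hV
      have h2 : ((2 + 2 * (1 + A * (2 * A + 1) + 3 * (k / (A + 1))) : ℕ) : ℤ) ≤ n := by
        exact_mod_cast hn
      push_cast at h2
      have : (V.card : ℤ) ≤ n := h.trans h2
      exact_mod_cast this)
  rw [hB] at this
  exact this

end Pool.Agent.Q179.LPM
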